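import Pool.Agent.H566Z.T3.Pair

set_option autoImplicit false
set_option linter.unusedSectionVars false
set_option linter.unusedVariables false

/-!
The pair, from a ring with a suitable group of units.
-/

namespace Pool.Agent.H566Z.T3

open Matrix Pool.Agent.H304Z Pool.Agent.H304Z.NH Pool.Agent.H923Z.GR

/-- A residually finite Kazhdan group with a Kazhdan subgroup whose compressors generate the
group, one of them of infinite index. -/
def RFPair : Prop :=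
  ∃ (G : Type) (_ : Group G) (_ : Countable G) (L : Subgroup G) (SG : Finset G) (SL : Finset L)
    (t : G), Kaz G SG ∧ Subgroup.closure (SG : Set G) = ⊤ ∧ Kaz L SL ∧
    Subgroup.closure (SL : Set L) = ⊤ ∧
    Subgroup.closure {r : G | ∀ g ∈ L, r * g * r⁻¹ ∈ L} = ⊤ ∧ (∀ g ∈ L, t * g * t⁻¹ ∈ L) ∧
    (∀ N : ℕ, ∃ l : Fin N → L, ∀ i j, i ≠ j → t⁻¹ * ((l i : G)⁻¹ * l j) * t ∉ L) ∧
    (∀ g : G, g ≠ 1 → ∃ (Q : Type) (_ : Group Q) (_ : Finite Q) (f : G →* Q), f g ≠ 1)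

theorem pair_abs {F R Γ : Type} [Field F] [Fintype F] [Ring R] [Algebra F R] [Group Γ]
    [Countable R] (hF : 512 ≤ Fintype.card F) (om : Γ →* R) (aa yy : Fin 6 → Γ) (y0 : Fin 3 → Γ)
    (h0 : ∀ i, ∃ j, y0 i = yy j)
    (h1 : ∀ i, aa i * aa (i + 1) = aa (i + 1) * aa i)
    (h2 : ∀ i, aa (i + 5) * aa (i + 1) = aa (i + 1) * aa (i + 5) * aa i ∨
      aa (i + 1) * aa (i + 5) = aa (i + 5) * aa (i + 1) * aa i)
    (h3 : ∀ k i, ∃ j l, aa k * yy i * (aa k)⁻¹ = yy j ∨ aa k * yy i * (aa k)⁻¹ = yy j * yy l)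
    (h4 : ∀ k i, ∃ j l, (aa k)⁻¹ * yy i * aa k = yy j ∨ (aa k)⁻¹ * yy i * aa k = yy j * yy l)
    (h5 : ∀ k i, ∃ j l, aa k * y0 i * (aa k)⁻¹ = y0 j ∨ aa k * y0 i * (aa k)⁻¹ = y0 j * y0 l)
    (h6 : ∀ i, ∃ j k l, yy i = y0 j ∨ yy i = aa k * ((aa l)⁻¹ * y0 j * aa l) * (aa k)⁻¹)
    (hinf : ∃ l : ℕ → R, (∀ i, l i ∈ Algebra.adjoin F (Set.range fun i => om (y0 i))) ∧
      ∀ i j, i ≠ j → om (aa 0)⁻¹ * (-l i + l j) * om (aa 0) ∉
        Algebra.adjoin F (Set.range fun i => om (y0 i)))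
    (hrf : ∀ g : (M R)ˣ, g ≠ 1 →
      ∃ (Q : Type) (_ : Group Q) (_ : Finite Q) (f : (M R)ˣ →* Q), f g ≠ 1) : RFPair := by
  classical
  let A0 := Algebra.adjoin F (Set.range fun i => om (y0 i))
  let A1 := Algebra.adjoin F (Set.range fun i => om (yy i))
  have h01 : A0 ≤ A1 := by
    apply Algebra.adjoin_mono
    rintro _ ⟨i, rfl⟩
    obtain ⟨j, hj⟩ := h0 i
    exact ⟨j, by simp only [hj]⟩
  let GG : Subgroup (M R)ˣ :=
    Subgroup.closure ((EL A1 : Set (M R)ˣ) ∪ Set.range fun k => sc om (aa k))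
  have hN : EL A1 ≤ GG := fun x hx => Subgroup.subset_closure (Or.inl hx)
  have hL : EL A0 ≤ GG := (EL_mono h01).trans hN
  let aG : Fin 6 → GG := fun k => ⟨sc om (aa k), Subgroup.subset_closure (Or.inr ⟨k, rfl⟩)⟩
  have c1 : ∀ k, ∀ g ∈ EL A1, sc om (aa k) * g * (sc om (aa k))⁻¹ ∈ EL A1 := fun k g hg =>
    EL_conj om A1 (aa k) (fun r hr => cj_mem om yy (aa k) (h3 k) hr) hg
  have c2 : ∀ k, ∀ g ∈ EL A1, sc om (aa k)⁻¹ * g * (sc om (aa k)⁻¹)⁻¹ ∈ EL A1 := fun k g hg =>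
    EL_conj om A1 (aa k)⁻¹ (fun r hr => cj_mem om yy (aa k)⁻¹
      (by simpa only [inv_inv] using h4 k) hr) hg
  have c0 : ∀ k, ∀ g ∈ EL A0, sc om (aa k) * g * (sc om (aa k))⁻¹ ∈ EL A0 := fun k g hg =>
    EL_conj om A0 (aa k) (fun r hr => cj_mem om y0 (aa k) (h5 k) hr) hg
  have hnorm : ((EL A1).subgroupOf GG).Normal := by
    rw [Subgroup.normal_subgroupOf_iff_le_normalizer hN, Subgroup.closure_le]
    rintro x (hx | ⟨k, rfl⟩)
    · exact Subgroup.le_normalizer hx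
    · refine Subgroup.mem_normalizer_iff.2 fun h => ⟨c1 k h, fun hh => ?_⟩
      have := c2 k _ hh
      rw [map_inv] at this
      simpa [mul_assoc] using this
  obtain ⟨S1, k1, g1⟩ := kaz_EL hF (by norm_num : 6 ≤ 12) (fun i => om (yy i))
  obtain ⟨SN, kN, gN⟩ := kaz_equiv (Subgroup.subgroupOfEquivOfLe hN).symm k1 g1
  obtain ⟨S0, k0, g0⟩ := kaz_EL hF (by norm_num : 3 ≤ 12) (fun i => om (y0 i))
  obtain ⟨SL, kL, gL⟩ := kaz_equiv (Subgroup.subgroupOfEquivOfLe hL).symm k0 g0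
  have top : ∀ T : Subgroup GG, (EL A1).subgroupOf GG ≤ T → (∀ k, aG k ∈ T) → T = ⊤ := by
    intro T t1 t2
    apply top_of_le_map
    rw [Subgroup.closure_le]
    rintro x (hx | ⟨k, rfl⟩)
    · exact ⟨⟨x, hN hx⟩, t1 hx, rfl⟩
    · exact ⟨aG k, t2 k, rfl⟩
  let SG : Finset GG := SN.image Subtype.val ∪ Finset.univ.image aG
  have s1 : ∀ s ∈ SN, (s : GG) ∈ SG := fun s hs =>
    Finset.mem_union_left _ (Finset.mem_image_of_mem _ hs)
  have s2 : ∀ k, aG k ∈ SG := fun k =>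
    Finset.mem_union_right _ (Finset.mem_image_of_mem _ (Finset.mem_univ k))
  have cM : Countable (M R) := inferInstanceAs (Countable (Fin 3 → Fin 3 → R))
  have cU : Countable (M R)ˣ := Units.val_injective.countable
  obtain ⟨l, l0, l1⟩ := hinf
  refine ⟨GG, inferInstance, inferInstance, (EL A0).subgroupOf GG, SG, SL, aG 0, ?_, ?_, kL, gL,
    ?_, fun g hg => c0 0 _ hg, fun N => ?_, fun g hg => ?_⟩
  · refine kaz_ext _ hnorm kN aG (fun i => Subtype.ext ?_) (fun i => ?_)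
      (top _ (fun x hx => Subgroup.subset_closure (Or.inl hx))
        fun k => Subgroup.subset_closure (Or.inr ⟨k, rfl⟩)) SG s1 s2
    · show sc om (aa i) * sc om (aa (i + 1)) = sc om (aa (i + 1)) * sc om (aa i)
      rw [← map_mul, ← map_mul, h1]
    · rcases h2 i with h | h
      · refine Or.inl (Subtype.ext ?_)
        show sc om (aa (i + 5)) * sc om (aa (i + 1)) =
          sc om (aa (i + 1)) * sc om (aa (i + 5)) * sc om (aa i)
        rw [← map_mul, ← map_mul, ← map_mul, h]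
      · refine Or.inr (Subtype.ext ?_)
        show sc om (aa (i + 1)) * sc om (aa (i + 5)) =
          sc om (aa (i + 5)) * sc om (aa (i + 1)) * sc om (aa i)
        rw [← map_mul, ← map_mul, ← map_mul, h]
  · refine top _ (fun x hx => ?_) fun k => Subgroup.subset_closure (s2 k)
    have : (⟨x, hx⟩ : (EL A1).subgroupOf GG) ∈ Subgroup.closure (SN : Set ((EL A1).subgroupOf GG)) :=
      gN ▸ Subgroup.mem_top _
    have h := Subgroup.mem_map_of_mem ((EL A1).subgroupOf GG).subtype this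
    rw [MonoidHom.map_closure] at h
    refine Subgroup.closure_mono ?_ h
    rintro _ ⟨s, hs, rfl⟩
    exact s1 s hs
  · set C := Subgroup.closure
      {r : GG | ∀ g ∈ (EL A0).subgroupOf GG, r * g * r⁻¹ ∈ (EL A0).subgroupOf GG} with hC
    have ca : ∀ k, aG k ∈ C := fun k => Subgroup.subset_closure fun g hg => c0 k _ hg
    have cl : ∀ x ∈ EL A0, x ∈ C.map GG.subtype := fun x hx =>
      ⟨⟨x, hL hx⟩, Subgroup.subset_closure fun g hg =>
        mul_mem (mul_mem (show (⟨x, hL hx⟩ : GG) ∈ (EL A0).subgroupOf GG from hx) hg)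
          (inv_mem (show (⟨x, hL hx⟩ : GG) ∈ (EL A0).subgroupOf GG from hx)), rfl⟩
    have cs : ∀ k, sc om (aa k) ∈ C.map GG.subtype := fun k => ⟨aG k, ca k, rfl⟩
    have key : EL A1 ≤ C.map GG.subtype := by
      refine EL_le _ _ (fun a => cl _ (e_EL _ (A0.smul_mem A0.one_mem a)))
        (cl _ (e_EL _ A0.one_mem)) (cl _ (e_EL _ A0.one_mem)) ?_
      rintro _ ⟨i, rfl⟩
      obtain ⟨j, k, m, h | h⟩ := h6 i
      · refine cl _ (e_EL _ ?_)
        simp only [h]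
        exact Algebra.subset_adjoin ⟨j, rfl⟩
      · have hy : e n01 (om (y0 j)) ∈ C.map GG.subtype :=
          cl _ (e_EL _ (Algebra.subset_adjoin ⟨j, rfl⟩))
        have e1 : e n01 (om (yy i)) = sc om (aa k) * (sc om (aa m)⁻¹ * e n01 (om (y0 j)) *
            (sc om (aa m)⁻¹)⁻¹) * (sc om (aa k))⁻¹ := by
          rw [sc_conj, sc_conj, h, inv_inv]
          simp only [map_mul]
        show e n01 (om (yy i)) ∈ _
        rw [e1, map_inv, inv_inv]
        exact mul_mem (mul_mem (cs k) (mul_mem (mul_mem (inv_mem (cs m)) hy) (cs m)))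
          (inv_mem (cs k))
    refine top _ (fun x hx => ?_) ca
    obtain ⟨y, hy, e1⟩ := key hx
    have : y = x := Subtype.ext e1
    rwa [← this]
  · have m0 : ∀ i, e n01 (l i) ∈ EL A0 := fun i => e_EL _ (l0 i)
    refine ⟨fun i => ⟨⟨e n01 (l i), hL (m0 i)⟩, m0 i⟩, fun i j hij h => ?_⟩
    have h' : (sc om (aa 0))⁻¹ * ((e n01 (l i))⁻¹ * e n01 (l j)) * sc om (aa 0) ∈ EL A0 := h
    have e1 : (sc om (aa 0))⁻¹ * ((e n01 (l i))⁻¹ * e n01 (l j)) * sc om (aa 0) =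
        e n01 (om (aa 0)⁻¹ * (-l i + l j) * om (aa 0)) := by
      have := sc_conj om (aa 0)⁻¹ n01 (-l i + l j)
      rw [map_inv, inv_inv, inv_inv] at this
      rw [e_neg, ← e_add, this]
    rw [e1] at h'
    have := EL_entry A0 h' 0 1
    rw [e_val, Matrix.add_apply, Matrix.one_apply_ne n01, Matrix.single_apply_same, zero_add] at this
    exact l1 i j (fun h => hij (Fin.ext h)) this
  · obtain ⟨Q, _, _, f, hf⟩ := hrf g (fun h => hg (Subtype.ext h))
    exact ⟨Q, inferInstance, inferInstance, f.comp GG.subtype, hf⟩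

end Pool.Agent.H566Z.T3
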