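import Mathlib

set_option autoImplicit false
set_option linter.unusedSectionVars false
set_option linter.unusedVariables false

/-!
Six isometries satisfying the Steinberg relations of type `A 2`: vectors that are close to the
fixed spaces of the six Heisenberg groups are close to a common fixed vector.
-/

namespace Pool.Agent.H566Z.T3

open Filter Topology
open scoped RealInnerProductSpace

variable {H : Type} [NormedAddCommGroup H] [InnerProductSpace ℝ H] [CompleteSpace H]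

theorem fix_of_convex {C : Set H} (hc : IsClosed C) (hcv : Convex ℝ C) (hne : C.Nonempty) :
    ∃ w ∈ C, ∀ u ∈ C, ‖u‖ = ‖w‖ → u = w := by
  obtain ⟨w, hw, hmin⟩ := exists_norm_eq_iInf_of_complete_convex hne hc.isComplete hcv 0
  refine ⟨w, hw, fun u hu huw => ?_⟩
  have h := (norm_eq_iInf_iff_real_inner_le_zero hcv hw).mp hmin u hu
  have h2 : ‖u - w‖ ^ 2 = ‖u‖ ^ 2 - 2 * ⟪u, w⟫ + ‖w‖ ^ 2 := norm_sub_sq_real u w
  rw [zero_sub, inner_neg_left, inner_sub_right, real_inner_self_eq_norm_sq,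
    real_inner_comm] at h
  rw [huw] at h2
  have h3 : ‖u - w‖ ^ 2 ≤ 0 := by linarith
  have h4 : ‖u - w‖ = 0 := by nlinarith [norm_nonneg (u - w)]
  exact sub_eq_zero.mp (norm_eq_zero.mp h4)

/-- common fixed vectors -/
def Fx (A : Set (H ≃ₗᵢ[ℝ] H)) : Submodule ℝ H where
  carrier := {x | ∀ a ∈ A, a x = x}
  add_mem' := by
    intro x y hx hy a ha
    rw [map_add, hx a ha, hy a ha]
  zero_mem' := fun a _ => map_zero a
  smul_mem' := by
    intro c x hx a ha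
    rw [map_smul, hx a ha]

theorem mem_Fx {A : Set (H ≃ₗᵢ[ℝ] H)} {x : H} : x ∈ Fx A ↔ ∀ a ∈ A, a x = x := Iff.rfl

theorem Fx_closed (A : Set (H ≃ₗᵢ[ℝ] H)) : IsClosed (Fx A : Set H) := by
  have : (Fx A : Set H) = ⋂ a ∈ A, {x | a x = x} := by
    ext x; simp [mem_Fx]
  rw [this]
  exact isClosed_biInter fun a _ => isClosed_eq a.continuous continuous_id

instance (A : Set (H ≃ₗᵢ[ℝ] H)) : CompleteSpace (Fx A) := (Fx_closed A).completeSpace_coe

theorem proj_comm (K : Submodule ℝ H) [K.HasOrthogonalProjection] (b : H ≃ₗᵢ[ℝ] H)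
    (h1 : ∀ x ∈ K, b x ∈ K) (h2 : ∀ x ∈ K, b.symm x ∈ K) (x : H) :
    K.starProjection (b x) = b (K.starProjection x) := by
  refine Submodule.eq_starProjection_of_mem_of_inner_eq_zero
    (h1 _ (K.starProjection_apply_mem x)) fun w hw => ?_
  rw [← map_sub, ← b.apply_symm_apply w, b.inner_map_map]
  exact K.starProjection_inner_eq_zero x _ (h2 w hw)

theorem app_of_eq {f g : H ≃ₗᵢ[ℝ] H} (h : f = g) (x : H) : f x = g x := by rw [h]

theorem symm_fix {a : H ≃ₗᵢ[ℝ] H} {x : H} (h : a x = x) : a.symm x = x := by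
  rw [LinearIsometryEquiv.symm_apply_eq, h]

theorem angle0 {a b z : H ≃ₗᵢ[ℝ] H} (hza : z * a = a * z) (hzb : z * b = b * z)
    (hab : a * b = b * a * z) {x : H} (hb : b x = x) (hx : x ∈ (Fx {z})ᗮ) : ⟪a x, x⟫ = 0 := by
  have hzb' : ∀ u, z (b u) = b (z u) := fun u => app_of_eq hzb u
  have hab' : ∀ u, a (b u) = b (a (z u)) := fun u => app_of_eq hab u
  have hzo : ∀ u ∈ (Fx {z})ᗮ, z u ∈ (Fx {z})ᗮ := by
    intro u hu
    rw [Submodule.mem_orthogonal] at hu ⊢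
    intro w hw
    have hw' : z w = w := hw z rfl
    rw [← hw', z.inner_map_map]
    exact hu w hw
  let C : Set H := {u | u ∈ (Fx {z})ᗮ ∧ b u = u ∧ ⟪a u, x⟫ = ⟪a x, x⟫}
  have hc : IsClosed C :=
    (Submodule.isClosed_orthogonal _).inter ((isClosed_eq b.continuous continuous_id).inter
      (isClosed_eq (a.continuous.inner continuous_const) continuous_const))
  have hcv : Convex ℝ C := by
    intro u hu u' hu' s t hs ht hst
    refine ⟨Submodule.add_mem _ (Submodule.smul_mem _ _ hu.1) (Submodule.smul_mem _ _ hu'.1), ?_, ?_⟩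
    · rw [map_add, map_smul, map_smul, hu.2.1, hu'.2.1]
    · rw [map_add, map_smul, map_smul, inner_add_left, real_inner_smul_left, real_inner_smul_left,
        hu.2.2, hu'.2.2, ← add_mul, hst, one_mul]
  obtain ⟨w, hw, huniq⟩ := fix_of_convex hc hcv ⟨x, hx, hb, rfl⟩
  have hzw : z w ∈ C := by
    refine ⟨hzo w hw.1, by rw [← hzb', hw.2.1], ?_⟩
    rw [← hw.2.2, ← b.inner_map_map, ← hab', hw.2.1, hb]
  have h1 : z w = w := huniq _ hzw (z.norm_map w)
  have h2 : w ∈ Fx {z} := by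
    intro a ha
    rw [Set.mem_singleton_iff.mp ha]
    exact h1
  have h3 := (Submodule.mem_orthogonal _ _).mp hw.1 w h2
  rw [inner_self_eq_zero] at h3
  rw [← hw.2.2, h3, map_zero, inner_zero_left]

theorem angle {a b z : H ≃ₗᵢ[ℝ] H} (hza : z * a = a * z) (hzb : z * b = b * z)
    (hab : a * b = b * a * z) {x y : H} (hb : b x = x) (hx : x ∈ (Fx {z})ᗮ) (ha : a y = y) :
    ‖x + y‖ ^ 2 ≤ 7 / 4 * (‖x‖ ^ 2 + ‖y‖ ^ 2) := by
  have h0 := angle0 hza hzb hab hb hx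
  have h1 : ⟪a x, y⟫ = ⟪x, y⟫ := by
    conv_lhs => rw [← ha]
    exact a.inner_map_map x y
  have h2 : ‖a x + x‖ ^ 2 = 2 * ‖x‖ ^ 2 := by
    rw [norm_add_sq_real, h0, a.norm_map]; ring
  have h3 := norm_sub_sq_real ((3 / 4 : ℝ) • (a x + x)) y
  rw [norm_smul, mul_pow, h2, real_inner_smul_left, inner_add_left, h1, Real.norm_eq_abs,
    sq_abs] at h3
  have h4 := sq_nonneg ‖(3 / 4 : ℝ) • (a x + x) - y‖
  rw [norm_add_sq_real]
  nlinarith [sq_nonneg ‖y‖]

theorem pyth (K : Submodule ℝ H) {x y : H} (hx : x ∈ K) (hy : y ∈ Kᗮ) :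
    ‖x + y‖ ^ 2 = ‖x‖ ^ 2 + ‖y‖ ^ 2 := by
  rw [norm_add_sq_real, (Submodule.mem_orthogonal _ _).mp hy x hx]; ring

theorem gain (K : Submodule ℝ H) {p q r : H} (hp : p ∈ K) (hq : q ∈ K) (hr : r ∈ Kᗮ) :
    ‖p + q‖ ^ 2 + 7 / 4 * ‖r‖ ^ 2 ≤
      2 * (‖p‖ ^ 2 + ‖q + r‖ ^ 2) - 1 / 4 * ‖p - (q + r)‖ ^ 2 := by
  have h1 := pyth K hq hr
  have h2 := pyth K (K.sub_mem hp hq) (Kᗮ.neg_mem hr)
  have e : p - q + -r = p - (q + r) := by abel
  rw [e, norm_neg] at h2
  have h3 := norm_add_sq_real p q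
  have h4 := norm_sub_sq_real p q
  nlinarith [sq_nonneg ‖p - q‖]

theorem local_est {a b z : H ≃ₗᵢ[ℝ] H} (hza : z * a = a * z) (hzb : z * b = b * z)
    (hab : a * b = b * a * z) {pp qp pm qm : H} (h1 : z pp = pp) (h2 : b pp = pp) (h3 : b qp = qp)
    (h4 : z pm = pm) (h5 : a pm = pm) (h6 : a qm = qm) :
    ∃ k : H, a k = k ∧ z k = k ∧ b k = k ∧ ‖pp + qp + pm + qm - k‖ ^ 2 ≤
      2 * (‖pp‖ ^ 2 + ‖qp‖ ^ 2 + ‖pm‖ ^ 2 + ‖qm‖ ^ 2) -
        1 / 4 * (‖pp - qp‖ ^ 2 + ‖pm - qm‖ ^ 2) := by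
  have hza' : ∀ u, z (a u) = a (z u) := fun u => app_of_eq hza u
  have hzb' : ∀ u, z (b u) = b (z u) := fun u => app_of_eq hzb u
  have hab' : ∀ u, a (b u) = b (a (z u)) := fun u => app_of_eq hab u
  have mz : ∀ u, u ∈ Fx ({z} : Set (H ≃ₗᵢ[ℝ] H)) ↔ z u = u := fun u => by simp [mem_Fx]
  have mA : ∀ u, u ∈ Fx ({a, z} : Set (H ≃ₗᵢ[ℝ] H)) ↔ a u = u ∧ z u = u :=
    fun u => by simp [mem_Fx]
  have cZ : ∀ c : H ≃ₗᵢ[ℝ] H, (∀ u, z (c u) = c (z u)) → ∀ u, c u = u →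
      c ((Fx {z}).starProjection u) = (Fx {z}).starProjection u := by
    intro c hc u hu
    rw [← proj_comm (Fx {z}) c, hu]
    · intro x hx
      rw [mz] at hx ⊢
      rw [hc, hx]
    · intro x hx
      rw [mz] at hx ⊢
      apply c.injective
      rw [← hc, c.apply_symm_apply, hx]
  obtain ⟨q1, hq1⟩ : ∃ q1, q1 = (Fx {z}).starProjection qp := ⟨_, rfl⟩
  obtain ⟨q2, hq2⟩ : ∃ q2, q2 = (Fx {z}).starProjection qm := ⟨_, rfl⟩
  have z1 : q1 ∈ Fx {z} := hq1 ▸ (Fx {z}).starProjection_apply_mem qp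
  have z2 : q2 ∈ Fx {z} := hq2 ▸ (Fx {z}).starProjection_apply_mem qm
  have o1 : qp - q1 ∈ (Fx {z})ᗮ := hq1 ▸ (Fx {z}).sub_starProjection_mem_orthogonal qp
  have o2 : qm - q2 ∈ (Fx {z})ᗮ := hq2 ▸ (Fx {z}).sub_starProjection_mem_orthogonal qm
  have b1 : b q1 = q1 := hq1 ▸ cZ b hzb' qp h3
  have a2 : a q2 = q2 := hq2 ▸ cZ a hza' qm h6
  have zp : pp ∈ Fx {z} := (mz _).mpr h1
  have zm : pm ∈ Fx {z} := (mz _).mpr h4
  obtain ⟨k, hk⟩ : ∃ k, k = (Fx {a, z}).starProjection (pp + q1) := ⟨_, rfl⟩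
  have kA : k ∈ Fx {a, z} := hk ▸ (Fx {a, z}).starProjection_apply_mem _
  have ko : pp + q1 - k ∈ (Fx {a, z})ᗮ := hk ▸ (Fx {a, z}).sub_starProjection_mem_orthogonal _
  have kb : b k = k := by
    rw [hk, ← proj_comm (Fx {a, z}) b, map_add, h2, b1]
    · intro x hx
      rw [mA] at hx ⊢
      exact ⟨by rw [hab', hx.2, hx.1], by rw [hzb', hx.2]⟩
    · intro x hx
      rw [mA] at hx ⊢
      have e2 : z (b.symm x) = b.symm x := by
        apply b.injective
        rw [← hzb', b.apply_symm_apply, hx.2]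
      refine ⟨?_, e2⟩
      apply b.injective
      conv_lhs => rw [← e2]
      rw [← hab', b.apply_symm_apply, hx.1]
  have kz := (mA k).mp kA
  refine ⟨k, kz.1, kz.2, kb, ?_⟩
  have yA : pm + q2 ∈ Fx ({a, z} : Set (H ≃ₗᵢ[ℝ] H)) := by
    rw [mA, map_add, map_add, h5, a2, h4, (mz _).mp z2]
    exact ⟨rfl, rfl⟩
  have e1 := pyth _ yA ko
  have e2 := pyth _ kA ko
  have e3 := pyth (Fx {z}) (x := pm + q2 + (pp + q1 - k)) (y := (qp - q1) + (qm - q2))
    (Submodule.add_mem _ (Submodule.add_mem _ zm z2)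
      (Submodule.sub_mem _ (Submodule.add_mem _ zp z1) ((mz _).mpr kz.2)))
    (Submodule.add_mem _ o1 o2)
  have e4 := angle hza hzb hab (x := qp - q1) (y := qm - q2) (by rw [map_sub, h3, b1]) o1
    (by rw [map_sub, h6, a2])
  have e5 := gain _ zp z1 o1
  have e6 := gain _ zm z2 o2
  have r1 : pm + q2 + (pp + q1 - k) + (qp - q1 + (qm - q2)) = pp + qp + pm + qm - k := by abel
  have r2 : k + (pp + q1 - k) = pp + q1 := by abel
  have r3 : q1 + (qp - q1) = qp := by abel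
  have r4 : q2 + (qm - q2) = qm := by abel
  rw [r1] at e3
  rw [r2] at e2
  rw [r3] at e5
  rw [r4] at e6
  nlinarith [sq_nonneg ‖k‖]

theorem iter {X : Type} [PseudoMetricSpace X] [CompleteSpace X] {U : Set X} (hU : IsClosed U)
    (S : X → X) (E : X → ℝ) (hE : Continuous E) (hE0 : ∀ x, 0 ≤ E x) (q : ℝ) (hq0 : 0 ≤ q)
    (hq : q < 1) (hS : ∀ x ∈ U, S x ∈ U ∧ E (S x) ≤ q ^ 2 * E x ∧ dist x (S x) ^ 2 ≤ E x)
    (x : X) (hx : x ∈ U) (r : ℝ) (hr : 0 ≤ r) (hxr : E x ≤ r ^ 2) :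
    ∃ y ∈ U, E y = 0 ∧ dist x y ≤ r / (1 - q) := by
  have h1 : ∀ n : ℕ, S^[n] x ∈ U ∧ E (S^[n] x) ≤ (r * q ^ n) ^ 2 := by
    intro n
    induction n with
    | zero => exact ⟨hx, by simpa using hxr⟩
    | succ n ih =>
      rw [Function.iterate_succ_apply']
      obtain ⟨a, b, -⟩ := hS _ ih.1
      refine ⟨a, b.trans ?_⟩
      have := mul_le_mul_of_nonneg_left ih.2 (sq_nonneg q)
      calc _ ≤ _ := this
        _ = _ := by ring
  have h2 : ∀ n : ℕ, dist (S^[n] x) (S^[n + 1] x) ≤ r * q ^ n := by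
    intro n
    rw [Function.iterate_succ_apply']
    exact (abs_le_of_sq_le_sq' ((hS _ (h1 n).1).2.2.trans (h1 n).2) (by positivity)).2
  obtain ⟨y, hy⟩ := cauchySeq_tendsto_of_complete (cauchySeq_of_le_geometric q r hq h2)
  refine ⟨y, hU.mem_of_tendsto hy (Eventually.of_forall fun n => (h1 n).1), ?_,
    dist_le_of_le_geometric_of_tendsto₀ q r hq h2 hy⟩
  have h3 : Tendsto (fun n : ℕ => (r * q ^ n) ^ 2) atTop (𝓝 ((r * 0) ^ 2)) :=
    ((tendsto_pow_atTop_nhds_zero_of_lt_one hq0 hq).const_mul r).pow 2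
  have h4 := le_of_tendsto_of_tendsto' ((hE.tendsto y).comp hy) h3 fun n => (h1 n).2
  simp only [mul_zero, ne_eq, OfNat.ofNat_ne_zero, not_false_eq_true, zero_pow] at h4
  exact le_antisymm h4 (hE0 y)

/-- energy on the octahedron -/
noncomputable def En (g : Fin 6 → H) : ℝ := ∑ i, (‖g (i + 1) - g i‖ ^ 2 + ‖g (i + 2) - g i‖ ^ 2)

/-- minus the Laplacian of the octahedron -/
def Lp (g : Fin 6 → H) (i : Fin 6) : H :=
  (g (i + 1) - g i) + (g (i + 2) - g i) + (g (i + 5) - g i) + (g (i + 4) - g i)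

theorem En_nonneg (g : Fin 6 → H) : 0 ≤ En g := Finset.sum_nonneg fun _ _ => by positivity

theorem En_add (g t : Fin 6 → H) :
    En (g + t) = En g - 2 * ∑ i, ⟪Lp g i, t i⟫ + En t := by
  simp only [En, Lp, Fin.sum_univ_six, Fin.reduceAdd, Pi.add_apply, ← real_inner_self_eq_norm_sq,
    inner_add_left, inner_add_right, inner_sub_left, inner_sub_right, real_inner_comm]
  ring

theorem Lp_sq (g : Fin 6 → H) : 4 * En g ≤ ∑ i, ‖Lp g i‖ ^ 2 := by
  have e : ∑ i, ‖Lp g i‖ ^ 2 = 4 * En g + 2 * (‖(g 0 + g 3) - (g 1 + g 4)‖ ^ 2 +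
      ‖(g 0 + g 3) - (g 2 + g 5)‖ ^ 2 + ‖(g 1 + g 4) - (g 2 + g 5)‖ ^ 2) := by
    simp only [En, Lp, Fin.sum_univ_six, Fin.reduceAdd, ← real_inner_self_eq_norm_sq,
      inner_add_left, inner_add_right, inner_sub_left, inner_sub_right, real_inner_comm]
    ring
  rw [e]
  have : 0 ≤ 2 * (‖(g 0 + g 3) - (g 1 + g 4)‖ ^ 2 +
      ‖(g 0 + g 3) - (g 2 + g 5)‖ ^ 2 + ‖(g 1 + g 4) - (g 2 + g 5)‖ ^ 2) := by positivity
  linarith

theorem sub_sq_le (x y : H) : ‖x - y‖ ^ 2 ≤ 2 * ‖x‖ ^ 2 + 2 * ‖y‖ ^ 2 := by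
  have h1 := norm_add_sq_real x y
  have h2 := norm_sub_sq_real x y
  nlinarith [sq_nonneg ‖x + y‖]

theorem En_le (t : Fin 6 → H) : En t ≤ 8 * ∑ i, ‖t i‖ ^ 2 := by
  have h : En t ≤ ∑ i, (2 * ‖t (i + 1)‖ ^ 2 + 2 * ‖t i‖ ^ 2 +
      (2 * ‖t (i + 2)‖ ^ 2 + 2 * ‖t i‖ ^ 2)) :=
    Finset.sum_le_sum fun i _ => add_le_add (sub_sq_le _ _) (sub_sq_le _ _)
  refine h.trans (le_of_eq ?_)
  simp only [Fin.sum_univ_six, Fin.reduceAdd]
  ring

theorem En_hex (g : Fin 6 → H) : En g ≤ 5 * ∑ i, ‖g (i + 1) - g (i + 2)‖ ^ 2 := by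
  have h : En g ≤ ∑ i, (‖g i - g (i + 1)‖ ^ 2 +
      (2 * ‖g i - g (i + 1)‖ ^ 2 + 2 * ‖g (i + 1) - g (i + 2)‖ ^ 2)) := by
    refine Finset.sum_le_sum fun i _ => add_le_add (by rw [norm_sub_rev]) ?_
    have := sub_sq_le (g (i + 1) - g i) (g (i + 1) - g (i + 2))
    rw [norm_sub_rev (g (i + 1)) (g i)] at this
    have e : g (i + 1) - g i - (g (i + 1) - g (i + 2)) = g (i + 2) - g i := by abel
    rw [e] at this
    exact this
  refine h.trans (le_of_eq ?_)
  simp only [Fin.sum_univ_six, Fin.reduceAdd]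
  ring

theorem En_two (g : Fin 6 → H) : ∑ i, (‖g (i + 1) - g i‖ ^ 2 + ‖g (i + 2) - g i‖ ^ 2 +
    ‖g (i + 5) - g i‖ ^ 2 + ‖g (i + 4) - g i‖ ^ 2) = 2 * En g := by
  simp only [En, Fin.sum_univ_six, Fin.reduceAdd, ← real_inner_self_eq_norm_sq,
    inner_sub_left, inner_sub_right, real_inner_comm]
  ring

theorem proj_min (K : Submodule ℝ H) [K.HasOrthogonalProjection] (x : H) {k : H} (hk : k ∈ K) :
    ‖x‖ ^ 2 ≤ ‖K.starProjection x‖ ^ 2 + ‖x - k‖ ^ 2 := by
  have h1 := pyth K (K.starProjection_apply_mem x) (K.sub_starProjection_mem_orthogonal x)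
  have h2 := pyth K (K.sub_mem (K.starProjection_apply_mem x) hk)
    (K.sub_starProjection_mem_orthogonal x)
  have e1 : K.starProjection x + (x - K.starProjection x) = x := by abel
  have e2 : K.starProjection x - k + (x - K.starProjection x) = x - k := by abel
  rw [e1] at h1
  rw [e2] at h2
  nlinarith [sq_nonneg ‖K.starProjection x - k‖]

theorem ej (a : Fin 6 → (H ≃ₗᵢ[ℝ] H)) (hc : ∀ i, a i * a (i + 1) = a (i + 1) * a i)
    (hh : ∀ i, a (i + 5) * a (i + 1) = a (i + 1) * a (i + 5) * a i ∨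
      a (i + 1) * a (i + 5) = a (i + 5) * a (i + 1) * a i)
    (v : H) (δ : ℝ) (hδ : 0 ≤ δ) (g : Fin 6 → H)
    (hg : ∀ i, a (i + 5) (g i) = g i ∧ a i (g i) = g i ∧ a (i + 1) (g i) = g i)
    (hv : ∀ i, ‖g i - v‖ ≤ δ) : ∃ w, (∀ i, a i w = w) ∧ ‖w - v‖ ≤ 3000 * δ := by
  let K : Fin 6 → Submodule ℝ H := fun i => Fx {a (i + 5), a i, a (i + 1)}
  have mK : ∀ i x, x ∈ K i ↔ a (i + 5) x = x ∧ a i x = x ∧ a (i + 1) x = x :=
    fun i x => by simp [K, mem_Fx]
  have i15 : ∀ i : Fin 6, i + 1 + 5 = i := by decide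
  have i25 : ∀ i : Fin 6, i + 2 + 5 = i + 1 := by decide
  have i51 : ∀ i : Fin 6, i + 5 + 1 = i := by decide
  have i41 : ∀ i : Fin 6, i + 4 + 1 = i + 5 := by decide
  let U : Set (Fin 6 → H) := {g | ∀ i, g i ∈ K i}
  have hU : IsClosed U := by
    have : U = ⋂ i, (fun g : Fin 6 → H => g i) ⁻¹' (K i : Set H) := by
      ext g; simp [U]
    rw [this]
    exact isClosed_iInter fun i => (Fx_closed _).preimage (continuous_apply i)
  let S : (Fin 6 → H) → (Fin 6 → H) :=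
    fun g => g + fun i => (1 / 8 : ℝ) • (K i).starProjection (Lp g i)
  have hEc : Continuous (En : (Fin 6 → H) → ℝ) := by
    unfold En
    fun_prop
  have key : ∀ g ∈ U, S g ∈ U ∧ En (S g) ≤ (399 / 400 : ℝ) ^ 2 * En g ∧
      dist g (S g) ^ 2 ≤ En g := by
    intro g hg
    have hg' := fun i => (mK i (g i)).mp (hg i)
    have loc : ∀ i, ‖Lp g i‖ ^ 2 ≤ ‖(K i).starProjection (Lp g i)‖ ^ 2 +
        (2 * (‖g (i + 1) - g i‖ ^ 2 + ‖g (i + 2) - g i‖ ^ 2 + ‖g (i + 5) - g i‖ ^ 2 +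
          ‖g (i + 4) - g i‖ ^ 2) - 1 / 4 * ‖g (i + 1) - g (i + 2)‖ ^ 2) := by
      intro i
      have f1 : a i (g (i + 1) - g i) = g (i + 1) - g i := by
        have := (hg' (i + 1)).1
        rw [i15] at this
        rw [map_sub, this, (hg' i).2.1]
      have f2 : a (i + 1) (g (i + 1) - g i) = g (i + 1) - g i := by
        rw [map_sub, (hg' (i + 1)).2.1, (hg' i).2.2]
      have f3 : a (i + 1) (g (i + 2) - g i) = g (i + 2) - g i := by
        have := (hg' (i + 2)).1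
        rw [i25] at this
        rw [map_sub, this, (hg' i).2.2]
      have f4 : a i (g (i + 5) - g i) = g (i + 5) - g i := by
        have := (hg' (i + 5)).2.2
        rw [i51] at this
        rw [map_sub, this, (hg' i).2.1]
      have f5 : a (i + 5) (g (i + 5) - g i) = g (i + 5) - g i := by
        rw [map_sub, (hg' (i + 5)).2.1, (hg' i).1]
      have f6 : a (i + 5) (g (i + 4) - g i) = g (i + 4) - g i := by
        have := (hg' (i + 4)).2.2
        rw [i41] at this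
        rw [map_sub, this, (hg' i).1]
      have c1 : a i * a (i + 5) = a (i + 5) * a i := by
        have := hc (i + 5)
        rw [i51] at this
        exact this.symm
      have e : g (i + 1) - g i - (g (i + 2) - g i) = g (i + 1) - g (i + 2) := by abel
      rcases hh i with h | h
      · obtain ⟨k, k1, k2, k3, k4⟩ := local_est c1 (hc i) h f1 f2 f3 f4 f5 f6
        have := proj_min (K i) (Lp g i) ((mK i k).mpr ⟨k1, k2, k3⟩)
        rw [e] at k4
        unfold Lp at this ⊢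
        nlinarith [sq_nonneg ‖g (i + 5) - g i - (g (i + 4) - g i)‖]
      · obtain ⟨k, k1, k2, k3, k4⟩ := local_est (hc i) c1 h f4 f5 f6 f1 f2 f3
        have := proj_min (K i) (Lp g i) ((mK i k).mpr ⟨k3, k2, k1⟩)
        have e2 : g (i + 5) - g i + (g (i + 4) - g i) + (g (i + 1) - g i) + (g (i + 2) - g i) =
            Lp g i := by unfold Lp; abel
        rw [e, e2] at k4
        nlinarith [sq_nonneg ‖g (i + 5) - g i - (g (i + 4) - g i)‖]
    have s1 := Finset.sum_le_sum fun i (_ : i ∈ (Finset.univ : Finset (Fin 6))) => loc i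
    rw [Finset.sum_add_distrib, Finset.sum_sub_distrib, ← Finset.mul_sum, ← Finset.mul_sum,
      En_two] at s1
    have s2 := Lp_sq g
    have s3 := En_hex g
    have s4 := En_add g (fun i => (1 / 8 : ℝ) • (K i).starProjection (Lp g i))
    have s5 := En_le (fun i => (1 / 8 : ℝ) • (K i).starProjection (Lp g i))
    have n1 : ∀ i, ‖(1 / 8 : ℝ) • (K i).starProjection (Lp g i)‖ ^ 2 =
        1 / 64 * ‖(K i).starProjection (Lp g i)‖ ^ 2 := by
      intro i
      rw [norm_smul, mul_pow, Real.norm_eq_abs, sq_abs]; norm_num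
    have n2 : ∀ i, ⟪Lp g i, (1 / 8 : ℝ) • (K i).starProjection (Lp g i)⟫ =
        1 / 8 * ‖(K i).starProjection (Lp g i)‖ ^ 2 := by
      intro i
      have := (K i).starProjection_inner_eq_zero (Lp g i) _ ((K i).starProjection_apply_mem (Lp g i))
      rw [inner_sub_left, real_inner_self_eq_norm_sq] at this
      rw [real_inner_smul_right]
      linarith
    simp only [n1, ← Finset.mul_sum] at s5
    simp only [n2, ← Finset.mul_sum] at s4
    have e0 := En_nonneg g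
    have e1 := En_nonneg (S g)
    have hS : En (S g) = En (g + fun i => (1 / 8 : ℝ) • (K i).starProjection (Lp g i)) := rfl
    refine ⟨fun i => (K i).add_mem (hg i) ((K i).smul_mem _ ((K i).starProjection_apply_mem _)),
      by rw [hS]; nlinarith, ?_⟩
    have d1 : dist g (S g) ≤ Real.sqrt (En g) := by
      refine (dist_pi_le_iff (Real.sqrt_nonneg _)).mpr fun i => ?_
      apply Real.le_sqrt_of_sq_le
      have e2 : dist (g i) (S g i) = ‖(1 / 8 : ℝ) • (K i).starProjection (Lp g i)‖ := by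
        rw [dist_comm, dist_eq_norm]
        simp [S]
      have e3 := Finset.single_le_sum (f := fun i => ‖(K i).starProjection (Lp g i)‖ ^ 2)
        (fun i _ => sq_nonneg _) (Finset.mem_univ i)
      rw [e2, n1]
      rw [hS] at e1
      nlinarith
    calc _ ≤ Real.sqrt (En g) ^ 2 := pow_le_pow_left₀ dist_nonneg d1 2
      _ = _ := Real.sq_sqrt e0
  have hE : En g ≤ (7 * δ) ^ 2 := by
    have h1 : ∀ i j, ‖g i - g j‖ ^ 2 ≤ 4 * δ ^ 2 := by
      intro i j
      have h2 := sub_sq_le (g i - v) (g j - v)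
      have e : g i - v - (g j - v) = g i - g j := by abel
      rw [e] at h2
      have h3 := pow_le_pow_left₀ (norm_nonneg _) (hv i) 2
      have h4 := pow_le_pow_left₀ (norm_nonneg _) (hv j) 2
      linarith
    have h2 : En g ≤ ∑ _i : Fin 6, (4 * δ ^ 2 + 4 * δ ^ 2) :=
      Finset.sum_le_sum fun i _ => add_le_add (h1 _ _) (h1 _ _)
    simp only [Finset.sum_const, Finset.card_univ, Fintype.card_fin, nsmul_eq_mul] at h2
    push_cast at h2
    nlinarith [sq_nonneg δ]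
  obtain ⟨y, hyU, hy0, hyd⟩ := iter hU S En hEc En_nonneg (399 / 400) (by norm_num) (by norm_num)
    key g (fun i => (mK i _).mpr (hg i)) (7 * δ) (by positivity) hE
  have hy1 : ∀ i, y (i + 1) = y i := by
    intro i
    have h1 := (Finset.sum_eq_zero_iff_of_nonneg (fun i _ => by positivity)).mp hy0 i
      (Finset.mem_univ i)
    have h2 : ‖y (i + 1) - y i‖ ^ 2 = 0 := by
      nlinarith [sq_nonneg ‖y (i + 1) - y i‖, sq_nonneg ‖y (i + 2) - y i‖]
    exact sub_eq_zero.mp (norm_eq_zero.mp (pow_eq_zero_iff two_ne_zero |>.mp h2))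
  have hy2 : ∀ i, y i = y 0 := by
    have a0 := hy1 0
    have a1 := hy1 1
    have a2 := hy1 2
    have a3 := hy1 3
    have a4 := hy1 4
    simp only [Fin.reduceAdd] at a0 a1 a2 a3 a4
    intro i
    fin_cases i
    · rfl
    · exact a0
    · exact a1.trans a0
    · exact a2.trans (a1.trans a0)
    · exact a3.trans (a2.trans (a1.trans a0))
    · exact a4.trans (a3.trans (a2.trans (a1.trans a0)))
  refine ⟨y 0, fun i => ?_, ?_⟩
  · rw [← hy2 i]
    exact ((mK i _).mp (hyU i)).2.1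
  · have h1 : dist (g 0) (y 0) ≤ dist g y := dist_le_pi_dist g y 0
    have h2 := norm_add_le (y 0 - g 0) (g 0 - v)
    rw [dist_comm, dist_eq_norm] at h1
    have e : y 0 - g 0 + (g 0 - v) = y 0 - v := by abel
    rw [e] at h2
    have h3 := hv 0
    have h4 : 7 * δ / (1 - 399 / 400) = 2800 * δ := by ring
    linarith

end Pool.Agent.H566Z.T3
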