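import Pool.Agent.H566Z.T3.Abs

set_option autoImplicit false
set_option linter.unusedSectionVars false
set_option linter.unusedVariables false
set_option linter.style.haveILetI false
set_option linter.unnecessarySeqFocus false

/-!
The concrete pair: elementary matrices over the group algebra of the affine group of the integer
lattice of rank three, over the field with 512 elements.
-/

namespace Pool.Agent.H566Z.T3

open Matrix Pool.Agent.H304Z Pool.Agent.H304Z.NH Pool.Agent.H923Z.GR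

/-- integer matrices of size four -/
abbrev M4 : Type := Matrix (Fin 4) (Fin 4) ℤ

/-- elementary integer matrices -/
def elm (i j : Fin 4) (c : ℤ) : M4 :=
  fun k l => if k = l then 1 else if k = i ∧ l = j then c else 0

/-- rows of the six roots -/
def ai : Fin 6 → Fin 4 := ![0, 0, 1, 1, 2, 2]

/-- columns of the six roots -/
def aj : Fin 6 → Fin 4 := ![1, 2, 2, 0, 0, 1]

/-- the six root elements -/
def aa (k : Fin 6) : M4ˣ :=
  ⟨elm (ai k) (aj k) 1, elm (ai k) (aj k) (-1), by revert k; decide +kernel,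
    by revert k; decide +kernel⟩

/-- rows of the translations -/
def yi : Fin 6 → Fin 4 := ![0, 1, 2, 0, 1, 2]

/-- signs of the translations -/
def yc : Fin 6 → ℤ := ![1, 1, 1, -1, -1, -1]

/-- the translations -/
def yy (k : Fin 6) : M4ˣ :=
  ⟨elm (yi k) 3 (yc k), elm (yi k) 3 (-yc k), by revert k; decide +kernel,
    by revert k; decide +kernel⟩

/-- the positive translations -/
def y0 (k : Fin 3) : M4ˣ := yy (k.castLE (by norm_num))

theorem h1 : ∀ i : Fin 6, aa i * aa (i + 1) = aa (i + 1) * aa i := by decide +kernel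

theorem h2 : ∀ i : Fin 6, aa (i + 5) * aa (i + 1) = aa (i + 1) * aa (i + 5) * aa i ∨
    aa (i + 1) * aa (i + 5) = aa (i + 5) * aa (i + 1) * aa i := by decide +kernel

theorem h3 : ∀ k i : Fin 6, ∃ j l : Fin 6, aa k * yy i * (aa k)⁻¹ = yy j ∨
    aa k * yy i * (aa k)⁻¹ = yy j * yy l := by decide +kernel

theorem h4 : ∀ k i : Fin 6, ∃ j l : Fin 6, (aa k)⁻¹ * yy i * aa k = yy j ∨
    (aa k)⁻¹ * yy i * aa k = yy j * yy l := by decide +kernel

theorem h5 : ∀ (k : Fin 6) (i : Fin 3), ∃ j l : Fin 3, aa k * y0 i * (aa k)⁻¹ = y0 j ∨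
    aa k * y0 i * (aa k)⁻¹ = y0 j * y0 l := by decide +kernel

theorem h6 : ∀ i : Fin 6, ∃ (j : Fin 3) (k l : Fin 6), yy i = y0 j ∨
    yy i = aa k * ((aa l)⁻¹ * y0 j * aa l) * (aa k)⁻¹ := by decide +kernel

theorem h7 : ∀ (i : Fin 3) (a b : Fin 4), 0 ≤ (y0 i : M4) a b := by decide +kernel

/-- the conjugated translation -/
def ww : M4ˣ := (aa 0)⁻¹ * y0 1 * aa 0

theorem ww_val : (ww : M4) = !![1, 0, 0, -1; 0, 1, 0, 1; 0, 0, 1, 0; 0, 0, 0, 1] := by
  decide +kernel

theorem ww_pow (n : ℕ) :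
    ((ww ^ n : M4ˣ) : M4) = !![1, 0, 0, -(n : ℤ); 0, 1, 0, n; 0, 0, 1, 0; 0, 0, 0, 1] := by
  induction n with
  | zero => decide +kernel
  | succ n ih =>
    rw [pow_succ, Units.val_mul, ih, ww_val]
    ext a b
    fin_cases a <;> fin_cases b <;> simp [Matrix.mul_apply, Fin.sum_univ_four] <;> ring

theorem ww_03 (n : ℕ) : ((ww ^ n : M4ˣ) : M4) 0 3 = -(n : ℤ) := by
  rw [ww_pow]
  rfl

/-- matrices with nonnegative entries -/
def P0 : Submonoid M4ˣ where
  carrier := {g | ∀ a b, 0 ≤ (g : M4) a b}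
  one_mem' := by
    intro a b
    rw [Units.val_one, Matrix.one_apply]
    split_ifs <;> norm_num
  mul_mem' := by
    intro x y hx hy a b
    rw [Units.val_mul, Matrix.mul_apply]
    exact Finset.sum_nonneg fun k _ => mul_nonneg (hx _ _) (hy _ _)

section

variable {F : Type} [Field F]

theorem coeff_zero {r : MonoidAlgebra F M4ˣ}
    (hr : r ∈ Algebra.adjoin F (Set.range fun i => MonoidAlgebra.of F M4ˣ (y0 i))) {g : M4ˣ}
    (hg : g ∉ P0) : r.coeff g = 0 := by
  have : Algebra.adjoin F (Set.range fun i => MonoidAlgebra.of F M4ˣ (y0 i)) ≤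
      (MonoidAlgebra.mapDomainAlgHom F F P0.subtype).range := by
    apply Algebra.adjoin_le
    rintro _ ⟨i, rfl⟩
    exact ⟨MonoidAlgebra.single ⟨y0 i, h7 i⟩ 1, MonoidAlgebra.mapDomain_single⟩
  obtain ⟨x, rfl⟩ := this hr
  refine Finsupp.mapDomain_of_notMem_range (f := P0.subtype) x.coeff g ?_
  rintro ⟨y, rfl⟩
  exact hg y.2

theorem hinf : ∃ l : ℕ → MonoidAlgebra F M4ˣ,
    (∀ i, l i ∈ Algebra.adjoin F (Set.range fun i => MonoidAlgebra.of F M4ˣ (y0 i))) ∧
    ∀ i j, i ≠ j → MonoidAlgebra.of F M4ˣ (aa 0)⁻¹ * (-l i + l j) *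
      MonoidAlgebra.of F M4ˣ (aa 0) ∉
        Algebra.adjoin F (Set.range fun i => MonoidAlgebra.of F M4ˣ (y0 i)) := by
  classical
  refine ⟨fun i => MonoidAlgebra.of F M4ˣ (y0 1 ^ (i + 1)), fun i => ?_, fun i j hij h => ?_⟩
  · simp only [map_pow]
    exact Subalgebra.pow_mem _ (Algebra.subset_adjoin (Set.mem_range_self (f := fun i =>
      MonoidAlgebra.of F M4ˣ (y0 i)) 1)) _
  · have e1 : ∀ n : ℕ, (aa 0)⁻¹ * y0 1 ^ n * aa 0 = ww ^ n := by
      intro n
      have := conj_pow (a := (aa 0)⁻¹) (b := y0 1) (i := n)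
      rw [inv_inv] at this
      rw [ww, this]
    rw [mul_add, add_mul, mul_neg, neg_mul, ← map_mul, ← map_mul, ← map_mul, ← map_mul, e1,
      e1] at h
    have hg : ww ^ (j + 1) ∉ P0 := by
      intro hh
      have := hh 0 3
      rw [ww_03] at this
      omega
    have := coeff_zero h hg
    have ne : ww ^ (j + 1) ≠ ww ^ (i + 1) := by
      intro hh
      have h1 := ww_03 (j + 1)
      rw [hh, ww_03] at h1
      omega
    simp [MonoidAlgebra.of_apply, ne] at this

theorem sep [Finite F] (x : MonoidAlgebra F M4ˣ) (hx : x ≠ 0) :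
    ∃ (S : Type) (_ : Ring S) (_ : Finite S) (φ : MonoidAlgebra F M4ˣ →+* S), φ x ≠ 0 := by
  classical
  let T : Finset ℤ := ((x.coeff.support ×ˢ x.coeff.support) ×ˢ
    (Finset.univ : Finset (Fin 4 × Fin 4))).image
      fun p => (p.1.1 : M4) p.2.1 p.2.2 - (p.1.2 : M4) p.2.1 p.2.2
  let n : ℕ := T.sup Int.natAbs + 1
  haveI : NeZero n := ⟨Nat.succ_ne_zero _⟩
  let ψ : M4ˣ →* Matrix (Fin 4) (Fin 4) (ZMod n) :=
    (Int.castRingHom (ZMod n)).mapMatrix.toMonoidHom.comp (Units.coeHom M4)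
  have inj : Set.InjOn ψ x.coeff.support := by
    intro g hg h hh e1
    apply Units.ext
    ext a b
    have e2 : (((g : M4) a b : ℤ) : ZMod n) = ((h : M4) a b : ℤ) := congrFun (congrFun e1 a) b
    have hT : (g : M4) a b - (h : M4) a b ∈ T :=
      Finset.mem_image.2 ⟨((g, h), (a, b)), by
        simp only [Finset.mem_product, Finset.mem_univ, and_true]
        exact ⟨hg, hh⟩, rfl⟩
    have hle : ((g : M4) a b - (h : M4) a b).natAbs ≤ T.sup Int.natAbs := Finset.le_sup hT
    have hd : (n : ℤ) ∣ (g : M4) a b - (h : M4) a b :=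
      (ZMod.intCast_eq_intCast_iff_dvd_sub _ _ _).1 e2.symm
    have := Int.eq_zero_of_abs_lt_dvd hd (by
      rw [Int.abs_eq_natAbs]
      exact_mod_cast Nat.lt_succ_of_le hle)
    omega
  haveI : Finite (Matrix (Fin 4) (Fin 4) (ZMod n)) :=
    inferInstanceAs (Finite (Fin 4 → Fin 4 → ZMod n))
  haveI : Finite (Matrix (Fin 4) (Fin 4) (ZMod n) →₀ F) :=
    Finite.of_injective _ DFunLike.coe_injective
  refine ⟨MonoidAlgebra F (Matrix (Fin 4) (Fin 4) (ZMod n)), inferInstance,
    Finite.of_injective _ MonoidAlgebra.coeff_injective, MonoidAlgebra.mapDomainRingHom F ψ, ?_⟩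
  intro h0
  apply hx
  apply MonoidAlgebra.coeff_injective
  ext g
  by_contra hne
  have hg : g ∈ x.coeff.support := Finsupp.mem_support_iff.2 hne
  have := Finsupp.mapDomain_apply' _ x.coeff subset_rfl inj hg
  have h2 : Finsupp.mapDomain ψ x.coeff = 0 := congrArg MonoidAlgebra.coeff h0
  rw [h2] at this
  exact hne this.symm

theorem hrf [Finite F] (g : (M (MonoidAlgebra F M4ˣ))ˣ) (hg : g ≠ 1) :
    ∃ (Q : Type) (_ : Group Q) (_ : Finite Q) (f : (M (MonoidAlgebra F M4ˣ))ˣ →* Q),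
      f g ≠ 1 := by
  have : ∃ a b, (g : M (MonoidAlgebra F M4ˣ)) a b - (1 : M (MonoidAlgebra F M4ˣ)) a b ≠ 0 := by
    by_contra hc
    push Not at hc
    apply hg
    apply Units.ext
    ext1 a b
    exact sub_eq_zero.1 (hc a b)
  obtain ⟨a, b, hab⟩ := this
  obtain ⟨S, _, _, φ, hφ⟩ := sep _ hab
  haveI : Finite (M S) := inferInstanceAs (Finite (Fin 3 → Fin 3 → S))
  refine ⟨(M S)ˣ, inferInstance, inferInstance,
    Units.map (φ.mapMatrix (m := Fin 3)).toMonoidHom, fun h => hφ ?_⟩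
  have h1 : φ.mapMatrix (g : M (MonoidAlgebra F M4ˣ)) = φ.mapMatrix 1 := by
    rw [map_one]
    exact congrArg Units.val h
  rw [map_sub, sub_eq_zero]
  exact congrFun (congrFun h1 a) b

end

/-- There is a residually finite Kazhdan group with a Kazhdan subgroup whose compressors
generate the group, one of them of infinite index. -/
theorem rfpair : RFPair := by
  classical
  letI : Fintype (GaloisField 2 9) := Fintype.ofFinite _
  have hF : 512 ≤ Fintype.card (GaloisField 2 9) := by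
    rw [← Nat.card_eq_fintype_card, GaloisField.card 2 9 (by norm_num)]
    norm_num
  haveI : Countable M4 := inferInstanceAs (Countable (Fin 4 → Fin 4 → ℤ))
  haveI : Countable M4ˣ := Units.val_injective.countable
  haveI : Countable (MonoidAlgebra (GaloisField 2 9) M4ˣ) :=
    MonoidAlgebra.coeff_injective.countable
  exact pair_abs hF (MonoidAlgebra.of (GaloisField 2 9) M4ˣ) aa yy y0 (fun i => ⟨_, rfl⟩)
    h1 h2 h3 h4 h5 h6 hinf hrf

end Pool.Agent.H566Z.T3
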