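import Pool.Agent.H566Z.T3.St3
import Pool.Agent.H923Z.GRMain

set_option autoImplicit false
set_option linter.unusedSectionVars false
set_option linter.unusedVariables false

/-!
A residually finite Kazhdan group with a Kazhdan subgroup whose compressors generate the group,
one of them being of infinite index.
-/

namespace Pool.Agent.H566Z.T3

open Matrix Pool.Agent.H304Z Pool.Agent.H304Z.NH Pool.Agent.H923Z.GR

theorem kaz_equiv {G H : Type} [Group G] [Group H] (φ : G ≃* H) {S : Finset G} (hK : Kaz G S)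
    (hS : Subgroup.closure (S : Set G) = ⊤) :
    ∃ S' : Finset H, Kaz H S' ∧ Subgroup.closure (S' : Set H) = ⊤ := by
  classical
  obtain ⟨ε, hε, h⟩ := hK
  refine ⟨S.image φ, ⟨ε, hε, ?_⟩, ?_⟩
  · intro E _ _ _ π hπ ⟨v, hv, hs⟩
    obtain ⟨w, w0, w1⟩ := h E (π.comp φ.toMonoidHom) (fun g => hπ _)
      ⟨v, hv, fun s hs' => hs _ (Finset.mem_image_of_mem _ hs')⟩
    refine ⟨w, w0, fun g => ?_⟩
    obtain ⟨g', rfl⟩ := φ.surjective g
    exact w1 g'
  · have := MonoidHom.map_closure φ.toMonoidHom (S : Set G)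
    rw [hS, Subgroup.map_top_of_surjective _ φ.surjective] at this
    rw [Finset.coe_image]
    exact this.symm

theorem top_of_le_map {G : Type} [Group G] {H : Subgroup G} {T : Subgroup H}
    (h : H ≤ T.map H.subtype) : T = ⊤ := by
  rw [eq_top_iff]
  intro g _
  obtain ⟨g', hg', e⟩ := h g.2
  have : g' = g := Subtype.ext e
  rwa [← this]

section EL

variable {F R : Type} [Field F] [Ring R] [Algebra F R]

/-- the elementary group of a subalgebra -/
def EL (A : Subalgebra F R) : Subgroup (M R)ˣ :=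
  Subgroup.closure {g | ∃ (i j : Fin 3) (h : i ≠ j) (r : R), r ∈ A ∧ g = e h r}

theorem e_EL {A : Subalgebra F R} {i j : Fin 3} (h : i ≠ j) {r : R} (hr : r ∈ A) : e h r ∈ EL A :=
  Subgroup.subset_closure ⟨i, j, h, r, hr, rfl⟩

theorem EL_mono {A B : Subalgebra F R} (h : A ≤ B) : EL A ≤ EL B := by
  apply Subgroup.closure_mono
  rintro _ ⟨i, j, hij, r, hr, rfl⟩
  exact ⟨i, j, hij, r, h hr, rfl⟩

theorem EL_le (s : Set R) (T : Subgroup (M R)ˣ) (h01 : ∀ a : F, e n01 (a • (1 : R)) ∈ T)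
    (h12 : e n12 (1 : R) ∈ T) (h20 : e n20 (1 : R) ∈ T) (hs : ∀ x ∈ s, e n01 x ∈ T) :
    EL (Algebra.adjoin F s) ≤ T := by
  have h01' : e n01 (1 : R) ∈ T := by simpa using h01 1
  let P : Subalgebra F R :=
    { carrier := {r | e n01 r ∈ T}
      mul_mem' := fun {a b} ha hb =>
        all_of_01 _ h01' h12 h20 (Or.inr (e_mem n01 n12 n02 _ ha
          (all_of_01 _ h01' h12 h20 (Or.inl hb) n12))) n01
      add_mem' := fun {a b} ha hb => by
        change e n01 (a + b) ∈ T
        rw [e_add]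
        exact mul_mem ha hb
      algebraMap_mem' := fun a => by
        change e n01 (algebraMap F R a) ∈ T
        rw [Algebra.algebraMap_eq_smul_one]
        exact h01 a }
  have hP : Algebra.adjoin F s ≤ P := Algebra.adjoin_le hs
  rw [EL, Subgroup.closure_le]
  rintro _ ⟨i, j, hij, r, hr, rfl⟩
  exact all_of_01 _ h01' h12 h20 (Or.inl (hP hr)) hij

theorem pair_EL (A : Subalgebra F R) {i j k l : Fin 3} (hij : i ≠ j) (hkl : k ≠ l)
    (h : (j ≠ k ∧ l ≠ i) ∨ (j = k ∧ i ≠ l)) {p q : R} (hp : p ∈ A) (hq : q ∈ A) :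
    HP2 (fun a : F => (⟨e hij (a • p), e_EL hij (A.smul_mem hp a)⟩ : EL A))
      (fun a : F => (⟨e hkl (a • q), e_EL hkl (A.smul_mem hq a)⟩ : EL A)) := by
  rcases h with ⟨h1, h2⟩ | ⟨rfl, hik⟩
  · exact HP2.of_comm fun _ _ => Subtype.ext (e_comm hij hkl h1 h2 _ _)
  · refine HP2.of_heis (fun c : F =>
      (⟨e hik (c • (p * q)), e_EL hik (A.smul_mem (A.mul_mem hp hq) c)⟩ : EL A)) ?_ ?_ ?_ ?_
    · intro c d
      apply Subtype.ext
      show e hik ((c + d) • (p * q)) = e hik (c • (p * q)) * e hik (d • (p * q))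
      rw [add_smul, e_add]
    · intro a b
      apply Subtype.ext
      show e hij (a • p) * e hkl (b • q) = e hkl (b • q) * (e hij (a • p) * e hik ((a * b) • (p * q)))
      rw [← smul_mul_smul_comm]
      exact e_heis hij hkl hik _ _
    · intro c b
      exact Subtype.ext (e_comm hik hij hik.symm hij.symm _ _)
    · intro c b
      exact Subtype.ext (e_comm hik hkl hkl.symm hik.symm _ _)

theorem kaz_EL [Fintype F] (hF : 512 ≤ Fintype.card F) {m : ℕ} (hm : m ≤ 12) (c : Fin m → R) :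
    ∃ S : Finset (EL (Algebra.adjoin F (Set.range c))), Kaz _ S ∧
      Subgroup.closure (S : Set (EL (Algebra.adjoin F (Set.range c)))) = ⊤ := by
  classical
  let A := Algebra.adjoin F (Set.range c)
  let rr : Fin m ⊕ Fin 3 → Fin 3 := Sum.elim (fun _ => 0) id
  let co : Fin m ⊕ Fin 3 → R := Sum.elim c (fun _ => 1)
  have hco : ∀ x, co x ∈ A := by
    rintro (x | x)
    · exact Algebra.subset_adjoin ⟨x, rfl⟩
    · exact A.one_mem
  let u : Fin m ⊕ Fin 3 → F → EL A :=
    fun x a => ⟨e (ne_succ (rr x)) (a • co x), e_EL _ (A.smul_mem (hco x) a)⟩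
  have hgen : Subgroup.closure {g | ∃ i t, g = u (finSumFinEquiv.symm i) t} = ⊤ := by
    apply top_of_le_map
    have hu : ∀ x t, (u x t : (M R)ˣ) ∈ (Subgroup.closure
        {g | ∃ i t, g = u (finSumFinEquiv.symm i) t}).map (EL A).subtype := fun x t =>
      ⟨u x t, Subgroup.subset_closure ⟨finSumFinEquiv x, t, by rw [Equiv.symm_apply_apply]⟩, rfl⟩
    refine EL_le _ _ (fun a => hu (Sum.inr 0) a) ?_ ?_ ?_
    · have := hu (Sum.inr 1) 1
      simp only [u, one_smul] at this
      exact this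
    · have := hu (Sum.inr 2) 1
      simp only [u, one_smul] at this
      exact this
    · rintro _ ⟨k, rfl⟩
      have := hu (Sum.inl k) 1
      simp only [u, one_smul] at this
      exact this
  obtain ⟨S, ε, hε, h⟩ := propT_lines2 hF (n := m + 3) (by omega) (by omega)
    (fun i => u (finSumFinEquiv.symm i))
    (fun i a b => by
      apply Subtype.ext
      show e (ne_succ _) ((a + b) • _) = e (ne_succ _) (a • _) * e (ne_succ _) (b • _)
      rw [add_smul, e_add])
    (fun i j _ => by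
      have : ∀ p q : Fin 3, ((p + 1 ≠ q ∧ q + 1 ≠ p) ∨ (p + 1 = q ∧ p ≠ q + 1)) ∨
          ((q + 1 ≠ p ∧ p + 1 ≠ q) ∨ (q + 1 = p ∧ q ≠ p + 1)) := by decide
      rcases this (rr (finSumFinEquiv.symm i)) (rr (finSumFinEquiv.symm j)) with h | h
      · exact Or.inl (pair_EL A _ _ h (hco _) (hco _))
      · exact Or.inr (pair_EL A _ _ h (hco _) (hco _)))
    hgen
  refine ⟨S ∪ (Finset.univ : Finset (Fin (m + 3) × F)).image
    (fun q => u (finSumFinEquiv.symm q.1) q.2), ⟨ε, hε, ?_⟩, ?_⟩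
  · intro E _ _ _ π hπ ⟨v, hv, hs⟩
    exact h E π hπ ⟨v, hv, fun s hs' => hs s (Finset.mem_union_left _ hs')⟩
  · rw [eq_top_iff, ← hgen]
    apply Subgroup.closure_mono
    rintro g ⟨i, a, rfl⟩
    simp only [Finset.coe_union, Finset.coe_image, Finset.coe_univ, Set.image_univ,
      Set.mem_union, Set.mem_range]
    exact Or.inr ⟨(i, a), rfl⟩

theorem e_neg {i j : Fin 3} (h : i ≠ j) (r : R) : (e h r)⁻¹ = e h (-r) := by
  rw [inv_eq_iff_mul_eq_one, ← e_add, add_neg_cancel, e_zero]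

theorem EL_entry (A : Subalgebra F R) {g : (M R)ˣ} (hg : g ∈ EL A) (a b : Fin 3) :
    (g : M R) a b ∈ A := by
  have key : ∀ {i j : Fin 3} (h : i ≠ j) {r : R}, r ∈ A → ∀ a b, (e h r : M R) a b ∈ A := by
    intro i j h r hr a b
    rw [e_val, Matrix.add_apply, Matrix.one_apply, Matrix.single_apply]
    refine A.add_mem ?_ ?_
    · split_ifs
      · exact A.one_mem
      · exact A.zero_mem
    · split_ifs
      · exact hr
      · exact A.zero_mem
  have mul : ∀ x y : M R, (∀ a b, x a b ∈ A) → (∀ a b, y a b ∈ A) → ∀ a b, (x * y) a b ∈ A := by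
    intro x y hx hy a b
    rw [Matrix.mul_apply]
    exact A.sum_mem fun k _ => A.mul_mem (hx _ _) (hy _ _)
  have one : ∀ a b, (1 : M R) a b ∈ A := by
    intro a b
    rw [Matrix.one_apply]
    split_ifs
    · exact A.one_mem
    · exact A.zero_mem
  have : (∀ a b, (g : M R) a b ∈ A) ∧ ∀ a b, ((g⁻¹ : (M R)ˣ) : M R) a b ∈ A := by
    induction hg using Subgroup.closure_induction with
    | mem x hx =>
      obtain ⟨i, j, h, r, hr, rfl⟩ := hx
      exact ⟨key h hr, by rw [e_neg]; exact key h (A.neg_mem hr)⟩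
    | one => exact ⟨one, by rw [inv_one]; exact one⟩
    | mul x y _ _ hx hy =>
      exact ⟨mul _ _ hx.1 hy.1, by rw [_root_.mul_inv_rev]; exact mul _ _ hy.2 hx.2⟩
    | inv x _ hx => exact ⟨hx.2, by rw [inv_inv]; exact hx.1⟩
  exact this.1 a b

variable {Γ : Type} [Group Γ] (om : Γ →* R)

/-- scalar matrices -/
def sc : Γ →* (M R)ˣ := ((Matrix.scalar (Fin 3)).toMonoidHom.comp om).toHomUnits

theorem sc_conj (u : Γ) {i j : Fin 3} (h : i ≠ j) (r : R) :
    sc om u * e h r * (sc om u)⁻¹ = e h (om u * r * om u⁻¹) := by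
  rw [← map_inv]
  apply Units.ext
  have e1 : ∀ u, (sc om u : M R) = diagonal fun _ => om u := fun u => rfl
  rw [Units.val_mul, Units.val_mul, e_val, e_val, e1, e1]
  ext a b
  rw [mul_diagonal, diagonal_mul, Matrix.add_apply, Matrix.add_apply, Matrix.one_apply,
    Matrix.single_apply, Matrix.single_apply, mul_add, add_mul]
  congr 1
  · split_ifs
    · rw [mul_one, ← map_mul, mul_inv_cancel, map_one]
    · simp
  · split_ifs <;> simp

theorem cj_mem {ι : Type} (y : ι → Γ) (u : Γ)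
    (h : ∀ i, ∃ j l, u * y i * u⁻¹ = y j ∨ u * y i * u⁻¹ = y j * y l) {r : R}
    (hr : r ∈ Algebra.adjoin F (Set.range fun i => om (y i))) :
    om u * r * om u⁻¹ ∈ Algebra.adjoin F (Set.range fun i => om (y i)) := by
  have hu : om u⁻¹ * om u = 1 := by rw [← map_mul, inv_mul_cancel, map_one]
  induction hr using Algebra.adjoin_induction with
  | mem x hx =>
    obtain ⟨i, rfl⟩ := hx
    obtain ⟨j, l, e | e⟩ := h i
    · rw [← map_mul, ← map_mul, e]
      exact Algebra.subset_adjoin ⟨j, rfl⟩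
    · rw [← map_mul, ← map_mul, e, map_mul]
      exact Subalgebra.mul_mem _ (Algebra.subset_adjoin ⟨j, rfl⟩) (Algebra.subset_adjoin ⟨l, rfl⟩)
  | algebraMap c =>
    rw [← Algebra.commutes, mul_assoc, ← map_mul, mul_inv_cancel, map_one, mul_one]
    exact Subalgebra.algebraMap_mem _ c
  | add x z _ _ hx hz =>
    rw [mul_add, add_mul]
    exact Subalgebra.add_mem _ hx hz
  | mul x z _ _ hx hz =>
    have e : om u * (x * z) * om u⁻¹ = (om u * x * om u⁻¹) * (om u * z * om u⁻¹) := by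
      calc om u * (x * z) * om u⁻¹ = om u * x * (om u⁻¹ * om u) * z * om u⁻¹ := by
            rw [hu]; simp only [mul_one, mul_assoc]
        _ = _ := by simp only [mul_assoc]
    rw [e]
    exact Subalgebra.mul_mem _ hx hz

theorem EL_conj (A : Subalgebra F R) (u : Γ) (h : ∀ r ∈ A, om u * r * om u⁻¹ ∈ A) {g : (M R)ˣ}
    (hg : g ∈ EL A) : sc om u * g * (sc om u)⁻¹ ∈ EL A := by
  induction hg using Subgroup.closure_induction with
  | mem x hx =>
    obtain ⟨i, j, hij, r, hr, rfl⟩ := hx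
    rw [sc_conj]
    exact e_EL hij (h r hr)
  | one => simp
  | mul x y _ _ hx hy =>
    have e : sc om u * (x * y) * (sc om u)⁻¹ =
        (sc om u * x * (sc om u)⁻¹) * (sc om u * y * (sc om u)⁻¹) := by group
    rw [e]
    exact mul_mem hx hy
  | inv x _ hx =>
    have e : sc om u * x⁻¹ * (sc om u)⁻¹ = (sc om u * x * (sc om u)⁻¹)⁻¹ := by group
    rw [e]
    exact inv_mem hx

end EL

end Pool.Agent.H566Z.T3
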