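import Pool.Agent.H566Z.T3.Spec

set_option autoImplicit false
set_option linter.unusedSectionVars false
set_option linter.unusedVariables false

/-!
The relative property (T) of the group of integer pairs in its semidirect product with two shears.
-/

namespace Pool.Agent.H566Z.T3

open MeasureTheory Filter Topology UnitAddTorus
open scoped ComplexConjugate NNReal ENNReal InnerProductSpace

/-- the representative of a point of the circle -/
noncomputable def rep (s : UnitAddCircle) : ℝ := (AddCircle.equivIoc 1 (-(1 / 2)) s : ℝ)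

theorem meas_rep : Measurable rep :=
  measurable_subtype_coe.comp (AddCircle.measurableEquivIoc 1 (-(1 / 2))).measurable

theorem coe_rep (s : UnitAddCircle) : ((rep s : ℝ) : UnitAddCircle) = s := AddCircle.coe_equivIoc

theorem rep_mem (s : UnitAddCircle) : -(1 / 2) < rep s ∧ rep s ≤ 1 / 2 := by
  have h := (AddCircle.equivIoc 1 (-(1 / 2 : ℝ)) s).2
  exact ⟨h.1, h.2.trans (by norm_num)⟩

theorem rep_coe {x : ℝ} (h : |x| < 1 / 2) : rep (x : UnitAddCircle) = x := by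
  rw [abs_lt] at h
  exact AddCircle.equivIoc_coe_of_mem ⟨h.1, by linarith [h.2]⟩

theorem rep_add {s t : UnitAddCircle} (hs : |rep s| < 1 / 4) (ht : |rep t| < 1 / 4) :
    rep (s + t) = rep s + rep t := by
  conv_lhs => rw [← coe_rep s, ← coe_rep t, ← AddCircle.coe_add]
  exact rep_coe ((abs_add_le _ _).trans_lt (by linarith))

theorem rep_sub {s t : UnitAddCircle} (hs : |rep s| < 1 / 4) (ht : |rep t| < 1 / 4) :
    rep (s - t) = rep s - rep t := by
  conv_lhs => rw [← coe_rep s, ← coe_rep t, ← AddCircle.coe_sub]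
  exact rep_coe ((abs_sub _ _).trans_lt (by linarith))

theorem far_est {s : UnitAddCircle} (hs : 1 / 4 ≤ |rep s|) : 2 ≤ ‖fourier 1 s - 1‖ ^ 2 := by
  have h1 : fourier 1 s = Complex.exp (((2 * Real.pi * rep s : ℝ) : ℂ) * Complex.I) := by
    conv_lhs => rw [← coe_rep s]
    rw [fourier_coe_apply]
    congr 1
    push_cast
    ring
  have h2 : Real.cos (2 * Real.pi * rep s) ≤ 0 := by
    rw [← Real.cos_abs, abs_mul, abs_of_pos (by positivity : (0 : ℝ) < 2 * Real.pi)]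
    have h3 : |rep s| ≤ 1 / 2 := abs_le.mpr ⟨(rep_mem s).1.le, (rep_mem s).2⟩
    have := Real.pi_pos
    apply Real.cos_nonpos_of_pi_div_two_le_of_le <;> nlinarith
  rw [h1, Complex.sq_norm, Complex.normSq_apply, Complex.sub_re, Complex.sub_im,
    Complex.exp_ofReal_mul_I_re, Complex.exp_ofReal_mul_I_im, Complex.one_re, Complex.one_im]
  nlinarith [Real.sin_sq_add_cos_sq (2 * Real.pi * rep s)]

theorem pingpong (μ : Measure TT) [IsFiniteMeasure μ] {f g : TT → TT} {e : ℝ}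
    (hf : ∀ B, MeasurableSet B → μ.real (f ⁻¹' B) ≤ μ.real B + e)
    (hg : ∀ B, MeasurableSet B → μ.real (g ⁻¹' B) ≤ μ.real B + e)
    {Q R F : Set TT} (hQ : MeasurableSet Q) (hR : MeasurableSet R)
    (h1 : ∀ p ∈ Q, p ∉ F → f p ∈ Q ∩ R) (h2 : ∀ p ∈ Q, p ∉ F → g p ∈ Q \ R) :
    μ.real Q ≤ 2 * μ.real F + 2 * e := by
  have a1 : μ.real (Q \ F) ≤ μ.real (f ⁻¹' (Q ∩ R)) :=
    measureReal_mono fun p hp => h1 p hp.1 hp.2
  have a2 : μ.real (Q \ F) ≤ μ.real (g ⁻¹' (Q \ R)) :=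
    measureReal_mono fun p hp => h2 p hp.1 hp.2
  have a3 := hf _ (hQ.inter hR)
  have a4 := hg _ (hQ.diff hR)
  have a5 : μ.real (Q ∩ R) + μ.real (Q \ R) = μ.real Q := measureReal_inter_add_sdiff hR
  have a6 : μ.real Q ≤ μ.real (Q \ F) + μ.real F := by
    refine (measureReal_mono ?_).trans (measureReal_union_le _ _)
    intro p hp
    by_cases h : p ∈ F
    · exact Or.inr h
    · exact Or.inl ⟨hp, h⟩
  linarith

variable {E : Type} [NormedAddCommGroup E] [InnerProductSpace ℂ E]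

/-- `μ` is the spectral measure of `v` -/
def IsSp (ρ : ZZ → (E ≃ₗᵢ[ℂ] E)) (v : E) (μ : Measure TT) : Prop :=
  ∀ h, ∫ t, mFourier h t ∂μ = ⟪v, ρ h v⟫_ℂ

theorem rho_zero {ρ : ZZ → (E ≃ₗᵢ[ℂ] E)} (hρ : ∀ m n, ρ (m + n) = ρ m * ρ n) : ρ 0 = 1 := by
  have h := hρ 0 0
  rw [add_zero] at h
  exact left_eq_mul.mp h

theorem sp_mass {ρ : ZZ → (E ≃ₗᵢ[ℂ] E)} (hρ : ∀ m n, ρ (m + n) = ρ m * ρ n) {v : E}
    {μ : Measure TT} (h : IsSp ρ v μ) : μ.real Set.univ = ‖v‖ ^ 2 := by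
  have h1 := h 0
  rw [rho_zero hρ, mFourier_zero] at h1
  simp only [ContinuousMap.one_apply, integral_const, Complex.real_smul, mul_one,
    LinearIsometryEquiv.coe_one, id_eq, inner_self_eq_norm_sq_to_K] at h1
  apply Complex.ofReal_injective
  rw [h1]
  push_cast
  rfl

theorem sp_int {ρ : ZZ → (E ≃ₗᵢ[ℂ] E)} (hρ : ∀ m n, ρ (m + n) = ρ m * ρ n) {v : E}
    {μ : Measure TT} [IsFiniteMeasure μ] (h : IsSp ρ v μ) (n : ZZ) :
    ∫ t, ‖mFourier n t - 1‖ ^ 2 ∂μ = ‖ρ n v - v‖ ^ 2 := by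
  have e : ∀ t, ‖mFourier n t - 1‖ ^ 2 = 2 - 2 * RCLike.re (mFourier n t) := by
    intro t
    have h1 := norm_mF n t
    have h2 : ‖mFourier n t‖ ^ 2 = 1 := by rw [h1]; norm_num
    rw [Complex.sq_norm, Complex.normSq_apply] at h2 ⊢
    simp only [Complex.sub_re, Complex.sub_im, Complex.one_re, Complex.one_im, RCLike.re_to_complex]
    linarith
  have hi := int_cont μ (mFourier n).continuous
  simp_rw [e]
  rw [integral_sub (integrable_const _) (hi.re.const_mul 2), integral_const_mul, integral_re hi,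
    h n, integral_const, sp_mass hρ h, norm_sub_rev, @norm_sub_sq ℂ, (ρ n).norm_map, smul_eq_mul]
  ring

theorem sp_cmp {ρ : ZZ → (E ≃ₗᵢ[ℂ] E)} (hρ : ∀ m n, ρ (m + n) = ρ m * ρ n) {v w : E}
    {μ ν : Measure TT} [IsFiniteMeasure μ] [IsFiniteMeasure ν] (hμ : IsSp ρ v μ) (hν : IsSp ρ w ν)
    {s : ℝ} (hs : 0 < s) (hs1 : s ≤ 1) (hw : ‖w‖ ≤ 1) (hvw : ‖v - w‖ ≤ s ^ 2) (B : Set TT) :
    μ.real B ≤ ν.real B + 3 * s ^ 2 := by
  obtain ⟨d, rfl⟩ : ∃ d, v = w + d := ⟨v - w, by abel⟩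
  rw [add_sub_cancel_left] at hvw
  obtain ⟨σ, hσ⟩ := exists_spec hρ d
  obtain ⟨τ, hτ⟩ := exists_spec hρ ((s : ℂ) • w - ((s⁻¹ : ℝ) : ℂ) • d)
  let a : ℝ≥0 := ⟨1 + s ^ 2, by positivity⟩
  let b : ℝ≥0 := ⟨1 + s⁻¹ ^ 2, by positivity⟩
  have ha : (a : ℝ) = 1 + s ^ 2 := rfl
  have hb : (b : ℝ) = 1 + s⁻¹ ^ 2 := rfl
  have key : μ + (τ : Measure TT) = a • ν + b • (σ : Measure TT) := by
    refine ext_mF fun n => ?_
    have c := (mFourier n).continuous
    rw [integral_add_measure (int_cont _ c) (int_cont _ c),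
      integral_add_measure (int_cont _ c) (int_cont _ c), integral_smul_nnreal_measure,
      integral_smul_nnreal_measure, hμ n, hν n, hσ n, hτ n, NNReal.smul_def, NNReal.smul_def,
      ha, hb, Complex.real_smul, Complex.real_smul]
    simp only [map_add, map_sub, map_smul, inner_add_left, inner_add_right, inner_sub_left,
      inner_sub_right, inner_smul_left, inner_smul_right, Complex.conj_ofReal]
    have hs' : (s : ℂ) ≠ 0 := by exact_mod_cast hs.ne'
    push_cast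
    field_simp
    ring
  have h1 : (μ + (τ : Measure TT)).real B = (a • ν + b • (σ : Measure TT)).real B := by rw [key]
  rw [measureReal_add_apply, measureReal_add_apply, measureReal_nnreal_smul_apply,
    measureReal_nnreal_smul_apply, ha, hb] at h1
  have h2 : ν.real B ≤ 1 := by
    refine (measureReal_mono (Set.subset_univ B)).trans ?_
    rw [sp_mass hρ hν]
    exact pow_le_one₀ (norm_nonneg _) hw
  have h3 : (σ : Measure TT).real B ≤ (s ^ 2) ^ 2 := by
    refine (measureReal_mono (Set.subset_univ B)).trans ?_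
    rw [sp_mass hρ hσ]
    exact pow_le_pow_left₀ (norm_nonneg _) hvw 2
  have h4 : 0 ≤ (τ : Measure TT).real B := measureReal_nonneg
  have h5 : (1 + s⁻¹ ^ 2) * (σ : Measure TT).real B ≤ (1 + s⁻¹ ^ 2) * (s ^ 2) ^ 2 :=
    mul_le_mul_of_nonneg_left h3 (by positivity)
  have h6 : (1 + s⁻¹ ^ 2) * (s ^ 2) ^ 2 = s ^ 2 * s ^ 2 + s ^ 2 := by
    field_simp
  have h7 : s ^ 2 ≤ 1 := pow_le_one₀ hs.le hs1
  have h8 : 0 ≤ s ^ 2 := sq_nonneg s
  nlinarith

theorem sp_move {ρ : ZZ → (E ≃ₗᵢ[ℂ] E)} (hρ : ∀ m n, ρ (m + n) = ρ m * ρ n) {v : E}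
    {μ : Measure TT} [IsFiniteMeasure μ] (hμ : IsSp ρ v μ) (X : E ≃ₗᵢ[ℂ] E) (A : ZZ → ZZ)
    (hX : ∀ n, X * ρ n = ρ (A n) * X) {f f' : TT → TT} (hf : Continuous f) (hf' : Continuous f')
    (hff : ∀ p, f' (f p) = p) (hA : ∀ n t, mFourier n (f t) = mFourier (A n) t)
    {s : ℝ} (hs : 0 < s) (hs1 : s ≤ 1) (hv : ‖v‖ ≤ 1) (hXv : ‖X v - v‖ ≤ s ^ 2) :
    (∀ B, MeasurableSet B → μ.real (f ⁻¹' B) ≤ μ.real B + 3 * s ^ 2) ∧
    (∀ B, MeasurableSet B → μ.real (f' ⁻¹' B) ≤ μ.real B + 3 * s ^ 2) := by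
  obtain ⟨σ, hσ⟩ := exists_spec hρ (X v)
  have key : μ = (σ : Measure TT).map f := by
    refine ext_mF fun n => ?_
    rw [integral_map hf.measurable.aemeasurable
      (mFourier n).continuous.measurable.aestronglyMeasurable]
    simp_rw [hA]
    have e : ρ (A n) (X v) = X (ρ n v) := (congrArg (fun T : E ≃ₗᵢ[ℂ] E => T v) (hX n)).symm
    rw [hμ n, hσ (A n), e, X.inner_map_map]
  have h1 : ∀ B, MeasurableSet B → μ.real B = (σ : Measure TT).real (f ⁻¹' B) := by
    intro B hB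
    rw [key, map_measureReal_apply hf.measurable hB]
  constructor
  · intro B hB
    rw [h1 B hB]
    exact sp_cmp hρ hμ hσ hs hs1 (by rw [X.norm_map]; exact hv) (by rw [norm_sub_rev]; exact hXv) _
  · intro B hB
    have e : f ⁻¹' (f' ⁻¹' B) = B := by
      ext p
      simp [hff]
    rw [h1 _ (hf'.measurable hB), e]
    exact sp_cmp hρ hσ hμ hs hs1 hv hXv _

theorem mF_two (n : ZZ) (t : TT) : mFourier n t = fourier (n 0) (t 0) * fourier (n 1) (t 1) := by
  simp only [mFourier, ContinuousMap.coe_mk, Fin.prod_univ_two]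

theorem fourier_add_pt (k : ℤ) (x y : UnitAddCircle) :
    fourier k (x + y) = fourier k x * fourier k y := by
  simp_rw [fourier_apply, zsmul_add, AddCircle.toCircle_add, Circle.coe_mul]

theorem rel_rho {ρ : ZZ → (E ≃ₗᵢ[ℂ] E)} (hρ : ∀ m n, ρ (m + n) = ρ m * ρ n) (X Y : E ≃ₗᵢ[ℂ] E)
    (hX : ∀ n, X * ρ n = ρ ![n 0 + n 1, n 1] * X) (hY : ∀ n, Y * ρ n = ρ ![n 0, n 0 + n 1] * Y)
    (v : E) (hv : ‖v‖ ≤ 1) {s : ℝ} (hs : 0 < s) (hs1 : s ≤ 1)
    (h1 : ‖X v - v‖ ≤ s ^ 2) (h2 : ‖Y v - v‖ ≤ s ^ 2) (h3 : ‖ρ ![1, 0] v - v‖ ≤ s ^ 2)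
    (h4 : ‖ρ ![0, 1] v - v‖ ≤ s ^ 2) (n : ZZ) : ‖ρ n v - v‖ ≤ 8 * s := by
  obtain ⟨σ, hσ⟩ := exists_spec hρ v
  obtain ⟨μ, hμ⟩ : ∃ μ : Measure TT, μ = σ := ⟨_, rfl⟩
  have : IsFiniteMeasure μ := by rw [hμ]; infer_instance
  have hsp : IsSp ρ v μ := by rw [hμ]; exact hσ
  obtain ⟨mf, mf'⟩ := sp_move hρ hsp X _ hX (f := fun t => ![t 0, t 0 + t 1])
    (f' := fun t => ![t 0, t 1 - t 0]) (by fun_prop) (by fun_prop)
    (fun p => by funext i; fin_cases i <;> simp)
    (fun n t => by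
      rw [mF_two, mF_two]
      simp only [Matrix.cons_val_zero, Matrix.cons_val_one, fourier_add_pt, fourier_add]
      ring) hs hs1 hv h1
  obtain ⟨mg, mg'⟩ := sp_move hρ hsp Y _ hY (f := fun t => ![t 0 + t 1, t 1])
    (f' := fun t => ![t 0 - t 1, t 1]) (by fun_prop) (by fun_prop)
    (fun p => by funext i; fin_cases i <;> simp)
    (fun n t => by
      rw [mF_two, mF_two]
      simp only [Matrix.cons_val_zero, Matrix.cons_val_one, fourier_add_pt, fourier_add]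
      ring) hs hs1 hv h2
  have s2 : s ^ 2 ≤ 1 := pow_le_one₀ hs.le hs1
  have s4 : (s ^ 2) ^ 2 ≤ s ^ 2 := by nlinarith [sq_nonneg s]
  have far : ∀ (i : Fin 2) (m : ZZ), (∀ t : TT, mFourier m t = fourier 1 (t i)) →
      ‖ρ m v - v‖ ≤ s ^ 2 → μ.real {t : TT | 1 / 4 ≤ |rep (t i)|} ≤ s ^ 2 / 2 := by
    intro i m hm hd
    have a1 := mul_meas_ge_le_integral_of_nonneg (μ := μ) (f := fun t => ‖mFourier m t - 1‖ ^ 2)
      (Eventually.of_forall fun t => sq_nonneg _)
      (int_cont μ (((mFourier m).continuous.sub continuous_const).norm.pow 2)) 2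
    rw [sp_int hρ hsp] at a1
    have a2 : μ.real {t : TT | 1 / 4 ≤ |rep (t i)|} ≤ μ.real {t | 2 ≤ ‖mFourier m t - 1‖ ^ 2} :=
      measureReal_mono fun t ht => by
        show 2 ≤ ‖mFourier m t - 1‖ ^ 2
        rw [hm]
        exact far_est ht
    have a3 := pow_le_pow_left₀ (norm_nonneg _) hd 2
    linarith
  have f0 := far 0 ![1, 0] (fun t => by rw [mF_two]; simp) h3
  have f1 := far 1 ![0, 1] (fun t => by rw [mF_two]; simp) h4
  have fF := measureReal_union_le (μ := μ) {t : TT | 1 / 4 ≤ |rep (t 0)|}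
    {t : TT | 1 / 4 ≤ |rep (t 1)|}
  have m0 : Measurable fun t : TT => rep (t 0) := meas_rep.comp (measurable_pi_apply 0)
  have m1 : Measurable fun t : TT => rep (t 1) := meas_rep.comp (measurable_pi_apply 1)
  have hsm : ∀ p : TT, p ∉ {t : TT | 1 / 4 ≤ |rep (t 0)|} ∪ {t : TT | 1 / 4 ≤ |rep (t 1)|} →
      |rep (p 0)| < 1 / 4 ∧ |rep (p 1)| < 1 / 4 := by
    intro p hp
    simp only [Set.mem_union, Set.mem_ofPred_eq, not_or, not_le] at hp
    exact hp
  have q1 := pingpong μ mf mg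
    (Q := {t : TT | (0 < rep (t 0) ∧ 0 ≤ rep (t 1)) ∨ (rep (t 0) < 0 ∧ rep (t 1) ≤ 0)})
    (R := {t : TT | |rep (t 0)| ≤ |rep (t 1)|})
    (F := {t : TT | 1 / 4 ≤ |rep (t 0)|} ∪ {t : TT | 1 / 4 ≤ |rep (t 1)|})
    (((measurableSet_lt measurable_const m0).inter (measurableSet_le measurable_const m1)).union
      ((measurableSet_lt m0 measurable_const).inter (measurableSet_le m1 measurable_const)))
    (measurableSet_le m0.abs m1.abs)
    (fun p hp hF => by
      obtain ⟨a, b⟩ := hsm p hF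
      simp only [Set.mem_inter_iff, Set.mem_ofPred_eq, Matrix.cons_val_zero, Matrix.cons_val_one,
        rep_add a b] at hp ⊢
      rcases hp with ⟨c, d⟩ | ⟨c, d⟩
      · exact ⟨Or.inl ⟨c, by linarith⟩, by
          rw [abs_of_pos c, abs_of_pos (by linarith)]; linarith⟩
      · exact ⟨Or.inr ⟨c, by linarith⟩, by
          rw [abs_of_neg c, abs_of_neg (by linarith)]; linarith⟩)
    (fun p hp hF => by
      obtain ⟨a, b⟩ := hsm p hF
      simp only [Set.mem_sdiff, Set.mem_ofPred_eq, Matrix.cons_val_zero, Matrix.cons_val_one,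
        rep_add a b, not_le] at hp ⊢
      rcases hp with ⟨c, d⟩ | ⟨c, d⟩
      · exact ⟨Or.inl ⟨by linarith, d⟩, by
          rw [abs_of_nonneg d, abs_of_pos (by linarith)]; linarith⟩
      · exact ⟨Or.inr ⟨by linarith, d⟩, by
          rw [abs_of_nonpos d, abs_of_neg (by linarith)]; linarith⟩)
  have q2 := pingpong μ mg' mf'
    (Q := {t : TT | (rep (t 0) ≤ 0 ∧ 0 < rep (t 1)) ∨ (0 ≤ rep (t 0) ∧ rep (t 1) < 0)})
    (R := {t : TT | |rep (t 1)| ≤ |rep (t 0)|})
    (F := {t : TT | 1 / 4 ≤ |rep (t 0)|} ∪ {t : TT | 1 / 4 ≤ |rep (t 1)|})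
    (((measurableSet_le m0 measurable_const).inter (measurableSet_lt measurable_const m1)).union
      ((measurableSet_le measurable_const m0).inter (measurableSet_lt m1 measurable_const)))
    (measurableSet_le m1.abs m0.abs)
    (fun p hp hF => by
      obtain ⟨a, b⟩ := hsm p hF
      simp only [Set.mem_inter_iff, Set.mem_ofPred_eq, Matrix.cons_val_zero, Matrix.cons_val_one,
        rep_sub a b] at hp ⊢
      rcases hp with ⟨c, d⟩ | ⟨c, d⟩
      · exact ⟨Or.inl ⟨by linarith, d⟩, by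
          rw [abs_of_pos d, abs_of_neg (by linarith)]; linarith⟩
      · exact ⟨Or.inr ⟨by linarith, d⟩, by
          rw [abs_of_neg d, abs_of_pos (by linarith)]; linarith⟩)
    (fun p hp hF => by
      obtain ⟨a, b⟩ := hsm p hF
      simp only [Set.mem_sdiff, Set.mem_ofPred_eq, Matrix.cons_val_zero, Matrix.cons_val_one,
        rep_sub b a, not_le] at hp ⊢
      rcases hp with ⟨c, d⟩ | ⟨c, d⟩
      · exact ⟨Or.inl ⟨c, by linarith⟩, by
          rw [abs_of_nonpos c, abs_of_pos (by linarith)]; linarith⟩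
      · exact ⟨Or.inr ⟨c, by linarith⟩, by
          rw [abs_of_nonneg c, abs_of_neg (by linarith)]; linarith⟩)
  have q3 : μ.real ({0}ᶜ : Set TT) ≤ 16 * s ^ 2 := by
    have := (measureReal_mono (μ := μ) (s₁ := ({0}ᶜ : Set TT)) (s₂ :=
      {t : TT | (0 < rep (t 0) ∧ 0 ≤ rep (t 1)) ∨ (rep (t 0) < 0 ∧ rep (t 1) ≤ 0)} ∪
      {t : TT | (rep (t 0) ≤ 0 ∧ 0 < rep (t 1)) ∨ (0 ≤ rep (t 0) ∧ rep (t 1) < 0)})
      (fun t ht => by
        by_contra hc
        simp only [Set.mem_union, Set.mem_ofPred_eq, not_or, not_and, not_le, not_lt] at hc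
        obtain ⟨⟨c1, c2⟩, c3, c4⟩ := hc
        have e0 : rep (t 0) = 0 := by
          rcases lt_trichotomy (rep (t 0)) 0 with h | h | h
          · linarith [c2 h, c3 h.le]
          · exact h
          · linarith [c1 h, c4 h.le]
        have e1 : rep (t 1) = 0 := le_antisymm (c3 e0.le) (c4 e0.ge)
        apply ht
        rw [Set.mem_singleton_iff]
        funext i
        fin_cases i
        · show t 0 = 0
          rw [← coe_rep (t 0), e0]; rfl
        · show t 1 = 0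
          rw [← coe_rep (t 1), e1]; rfl)).trans (measureReal_union_le _ _)
    linarith
  have q4 : ‖ρ n v - v‖ ^ 2 ≤ 4 * μ.real ({0}ᶜ : Set TT) := by
    have hm : MeasurableSet ({0}ᶜ : Set TT) := (measurableSet_singleton 0).compl
    rw [← sp_int hρ hsp, mul_comm, ← smul_eq_mul, ← integral_indicator_const _ hm]
    refine integral_mono (int_cont μ (((mFourier n).continuous.sub continuous_const).norm.pow 2))
      ((integrable_const _).indicator hm) fun t => ?_
    by_cases ht : t = 0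
    · subst ht
      have : mFourier n (0 : TT) = 1 := by
        rw [mF_two]; simp
      simp [this]
    · rw [Set.indicator_of_mem (by simpa using ht)]
      have h5 := norm_sub_le (mFourier n t) 1
      rw [norm_mF, norm_one] at h5
      show ‖mFourier n t - 1‖ ^ 2 ≤ 4
      nlinarith [norm_nonneg (mFourier n t - 1)]
  exact (abs_le_of_sq_le_sq' (by nlinarith) (by positivity)).2

theorem rel_T (U V X Y : E ≃ₗᵢ[ℂ] E) (hUV : U * V = V * U) (hXU : X * U = U * X)
    (hXV : X * V = U * V * X) (hYV : Y * V = V * Y) (hYU : Y * U = U * V * Y)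
    (v : E) (hv : ‖v‖ ≤ 1) {s : ℝ} (hs : 0 < s) (hs1 : s ≤ 1)
    (h1 : ‖X v - v‖ ≤ s ^ 2) (h2 : ‖Y v - v‖ ≤ s ^ 2) (h3 : ‖U v - v‖ ≤ s ^ 2)
    (h4 : ‖V v - v‖ ≤ s ^ 2) (m n : ℤ) : ‖(U ^ m * V ^ n) v - v‖ ≤ 8 * s := by
  have hc : Commute U V := hUV
  have sx : SemiconjBy X U U := hXU
  have sx' : SemiconjBy X V (U * V) := hXV
  have sy : SemiconjBy Y V V := hYV
  have sy' : SemiconjBy Y U (U * V) := hYU
  exact rel_rho (ρ := fun n => U ^ n 0 * V ^ n 1)
    (fun m n => by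
      simp only [Pi.add_apply, zpow_add]
      exact (hc.zpow_zpow _ _).mul_mul_mul_comm _ _)
    X Y
    (fun n => by
      have := (sx.zpow_right (n 0)).mul_right (sx'.zpow_right (n 1))
      simp only [Matrix.cons_val_zero, Matrix.cons_val_one]
      rw [this.eq, hc.mul_zpow, zpow_add]
      simp only [mul_assoc])
    (fun n => by
      have := (sy'.zpow_right (n 0)).mul_right (sy.zpow_right (n 1))
      simp only [Matrix.cons_val_zero, Matrix.cons_val_one]
      rw [this.eq, hc.mul_zpow, zpow_add]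
      simp only [mul_assoc])
    v hv hs hs1 h1 h2 (by simpa using h3) (by simpa using h4) ![m, n]

end Pool.Agent.H566Z.T3
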