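import Mathlib

set_option autoImplicit false
set_option linter.unusedSectionVars false
set_option linter.unusedVariables false

/-!
Spectral measures of vectors for unitary representations of the group of integer pairs.
-/

namespace Pool.Agent.H566Z.T3

open MeasureTheory Filter Topology UnitAddTorus
open scoped ComplexConjugate NNReal ENNReal InnerProductSpace

/-- the two-dimensional torus -/
abbrev TT : Type := UnitAddTorus (Fin 2)

/-- integer pairs -/
abbrev ZZ : Type := Fin 2 → ℤ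

/-- Haar measure -/
noncomputable def lam : Measure TT := Measure.pi fun _ => AddCircle.haarAddCircle

instance : IsProbabilityMeasure lam := by
  unfold lam; infer_instance

theorem int_cont {F : Type} [NormedAddCommGroup F] (μ : Measure TT) [IsFiniteMeasure μ]
    {f : TT → F} (hf : Continuous f) : Integrable f μ :=
  hf.integrable_of_hasCompactSupport (HasCompactSupport.of_compactSpace _)

theorem int_fourier (k : ℤ) : ∫ t : UnitAddCircle, fourier k t ∂AddCircle.haarAddCircle =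
    if k = 0 then 1 else 0 := by
  split_ifs with h
  · simp [h]
  · exact integral_eq_zero_of_add_right_eq_neg (μ := AddCircle.haarAddCircle)
      (fourier_add_half_inv_index h one_pos)

theorem int_mF (n : ZZ) : ∫ t, mFourier n t ∂lam = if n = 0 then 1 else 0 := by
  have h := integral_fintype_prod_eq_prod (𝕜 := ℂ) (E := fun _ : Fin 2 => UnitAddCircle)
    (fun i t => fourier (n i) t) (μ := fun _ => AddCircle.haarAddCircle)
  have e : ∫ t, mFourier n t ∂lam = ∏ i, ∫ t : UnitAddCircle, fourier (n i) t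
      ∂AddCircle.haarAddCircle := h
  rw [e, Fin.prod_univ_two, int_fourier, int_fourier]
  by_cases h0 : n = 0
  · simp [h0]
  · rw [if_neg h0]
    by_cases h1 : n 0 = 0
    · have h2 : n 1 ≠ 0 := fun h2 => h0 (by
        funext i
        fin_cases i
        · exact h1
        · exact h2)
      rw [if_neg h2, mul_zero]
    · rw [if_neg h1, zero_mul]

theorem norm_mF (n : ZZ) (t : TT) : ‖mFourier n t‖ = 1 := by
  simp only [mFourier, fourier_apply, ContinuousMap.coe_mk, norm_prod, Circle.norm_coe,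
    Finset.prod_const_one]

theorem ext_mF {μ ν : Measure TT} [IsFiniteMeasure μ] [IsFiniteMeasure ν]
    (h : ∀ n, ∫ t, mFourier n t ∂μ = ∫ t, mFourier n t ∂ν) : μ = ν := by
  refine ext_of_forall_mem_subalgebra_integral_eq_of_polish (𝕜 := ℂ)
    (A := (mFourierSubalgebra (Fin 2)).comap (BoundedContinuousFunction.toContinuousMapStarₐ ℂ))
    ?_ ?_
  · intro x y hxy
    obtain ⟨f, ⟨g, hg, rfl⟩, hf⟩ := mFourierSubalgebra_separatesPoints hxy
    exact ⟨_, ⟨g, ⟨BoundedContinuousFunction.mkOfCompact g, hg, rfl⟩, rfl⟩, hf⟩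
  · intro g hg
    have key : ∀ f ∈ Submodule.span ℂ (Set.range (mFourier (d := Fin 2))),
        ∫ t, f t ∂μ = ∫ t, f t ∂ν := by
      intro f hf
      induction hf using Submodule.span_induction with
      | mem x hx =>
        obtain ⟨n, rfl⟩ := hx
        exact h n
      | zero => simp
      | add x y _ _ hx hy =>
        simp only [ContinuousMap.add_apply]
        rw [integral_add (int_cont μ x.continuous) (int_cont μ y.continuous),
          integral_add (int_cont ν x.continuous) (int_cont ν y.continuous), hx, hy]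
      | smul c x _ hx =>
        simp only [ContinuousMap.smul_apply]
        rw [integral_smul, integral_smul, hx]
    refine key (BoundedContinuousFunction.toContinuousMapStarₐ ℂ g) ?_
    rw [← mFourierSubalgebra_coe]
    exact hg

variable {E : Type} [NormedAddCommGroup E] [InnerProductSpace ℂ E]

/-- a box of integer pairs -/
noncomputable def box (N : ℕ) : Finset ZZ := Fintype.piFinset fun _ => Finset.Ico (0 : ℤ) N

/-- the vector valued trigonometric polynomial -/
noncomputable def FF (ρ : ZZ → (E ≃ₗᵢ[ℂ] E)) (v : E) (N : ℕ) (t : TT) : E :=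
  ∑ c ∈ box N, mFourier (-c) t • ρ c v

theorem cont_FF (ρ : ZZ → (E ≃ₗᵢ[ℂ] E)) (v : E) (N : ℕ) : Continuous (FF ρ v N) := by
  unfold FF
  exact continuous_finsetSum _ fun c _ => (mFourier (-c)).continuous.smul continuous_const

theorem rho_inner {ρ : ZZ → (E ≃ₗᵢ[ℂ] E)} (hρ : ∀ m n, ρ (m + n) = ρ m * ρ n) (c h : ZZ) (v w : E) :
    ⟪ρ c v, ρ (c + h) w⟫_ℂ = ⟪v, ρ h w⟫_ℂ := by
  rw [hρ]
  exact (ρ c).inner_map_map v (ρ h w)

theorem int_FF {ρ : ZZ → (E ≃ₗᵢ[ℂ] E)} (hρ : ∀ m n, ρ (m + n) = ρ m * ρ n) (v : E) (N : ℕ) (h : ZZ) :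
    ∫ t, ((‖FF ρ v N t‖ ^ 2 : ℝ) : ℂ) * mFourier h t ∂lam =
      (((box N).filter fun c => c + h ∈ box N).card : ℂ) * ⟪v, ρ h v⟫_ℂ := by
  have h1 : ∀ t, ((‖FF ρ v N t‖ ^ 2 : ℝ) : ℂ) * mFourier h t =
      ∑ c ∈ box N, ∑ c' ∈ box N, ⟪ρ c v, ρ c' v⟫_ℂ * mFourier (c + h - c') t := by
    intro t
    have e : ((‖FF ρ v N t‖ ^ 2 : ℝ) : ℂ) = ⟪FF ρ v N t, FF ρ v N t⟫_ℂ := by
      rw [inner_self_eq_norm_sq_to_K]; push_cast; rfl
    rw [e, FF, sum_inner, Finset.sum_mul]
    refine Finset.sum_congr rfl fun c _ => ?_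
    rw [inner_sum, Finset.sum_mul]
    refine Finset.sum_congr rfl fun c' _ => ?_
    rw [inner_smul_left, inner_smul_right, ← mFourier_neg, neg_neg, sub_eq_add_neg, mFourier_add,
      mFourier_add]
    ring
  have hint : ∀ c c' : ZZ, Integrable (fun t => ⟪ρ c v, ρ c' v⟫_ℂ * mFourier (c + h - c') t) lam :=
    fun c c' => (int_cont lam (mFourier _).continuous).const_mul _
  simp_rw [h1]
  rw [integral_finsetSum _ fun c _ => integrable_finsetSum _ fun c' _ => hint c c',
    Finset.card_filter, Nat.cast_sum, Finset.sum_mul]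
  refine Finset.sum_congr rfl fun c _ => ?_
  rw [integral_finsetSum _ fun c' _ => hint c c']
  simp_rw [integral_const_mul, int_mF, sub_eq_zero]
  simp only [mul_ite, mul_one, mul_zero, Finset.sum_ite_eq]
  split_ifs with hc
  · rw [rho_inner hρ]; simp
  · simp

theorem card_one (N : ℕ) (k : ℤ) (hk : |k| ≤ N) :
    ((((Finset.Ico (0 : ℤ) N).filter fun x => x + k ∈ Finset.Ico (0 : ℤ) N).card : ℕ) : ℤ) =
      N - |k| := by
  have e : ((Finset.Ico (0 : ℤ) N).filter fun x => x + k ∈ Finset.Ico (0 : ℤ) N) =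
      Finset.Ico (max 0 (-k)) (min (N : ℤ) (N - k)) := by
    ext x
    simp only [Finset.mem_filter, Finset.mem_Ico]
    omega
  rw [e, Int.card_Ico]
  rcases abs_cases k with ⟨h1, h2⟩ | ⟨h1, h2⟩ <;> omega

theorem card_box (N : ℕ) (h : ZZ) (h0 : |h 0| ≤ N) (h1 : |h 1| ≤ N) :
    (((box N).filter fun c => c + h ∈ box N).card : ℂ) =
      ((N : ℂ) - ((|h 0| : ℤ) : ℂ)) * ((N : ℂ) - ((|h 1| : ℤ) : ℂ)) := by
  have e : ((box N).filter fun c => c + h ∈ box N) = Fintype.piFinset fun i =>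
      (Finset.Ico (0 : ℤ) N).filter fun x => x + h i ∈ Finset.Ico (0 : ℤ) N := by
    ext c
    simp only [box, Finset.mem_filter, Fintype.mem_piFinset, Pi.add_apply]
    exact forall_and.symm
  rw [e, Fintype.card_piFinset, Fin.prod_univ_two]
  have a0 := congrArg (Int.cast : ℤ → ℂ) (card_one N (h 0) h0)
  have a1 := congrArg (Int.cast : ℤ → ℂ) (card_one N (h 1) h1)
  rw [Int.cast_natCast, Int.cast_sub, Int.cast_natCast] at a0 a1
  rw [Nat.cast_mul, a0, a1]

theorem ratio (h : ZZ) : Tendsto (fun N : ℕ =>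
    (((box (N + 1)).filter fun c => c + h ∈ box (N + 1)).card : ℂ) / ((N + 1 : ℕ) : ℂ) ^ 2) atTop
      (𝓝 1) := by
  have h1 : ∀ k : ℂ, Tendsto (fun N : ℕ => 1 - k * (((N + 1 : ℕ) : ℂ))⁻¹) atTop (𝓝 1) := by
    intro k
    have := ((tendsto_inv_atTop_nhds_zero_nat (𝕜 := ℂ)).comp (tendsto_add_atTop_nat 1)).const_mul k
    simpa using this.const_sub 1
  have h2 := (h1 ((|h 0| : ℤ) : ℂ)).mul (h1 ((|h 1| : ℤ) : ℂ))
  rw [one_mul] at h2
  refine h2.congr' ?_
  filter_upwards [eventually_ge_atTop (h 0).natAbs, eventually_ge_atTop (h 1).natAbs] with N a b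
  have hN : (((N + 1 : ℕ) : ℂ)) ≠ 0 := Nat.cast_ne_zero.mpr (Nat.succ_ne_zero N)
  rw [card_box (N + 1) h (by rw [Int.abs_eq_natAbs]; omega) (by rw [Int.abs_eq_natAbs]; omega)]
  field_simp

/-- the Fejer density -/
noncomputable def dens (ρ : ZZ → (E ≃ₗᵢ[ℂ] E)) (v : E) (N : ℕ) (t : TT) : ℝ≥0 :=
  ⟨‖FF ρ v N t‖ ^ 2 / (N : ℝ) ^ 2, by positivity⟩

theorem cont_dens (ρ : ZZ → (E ≃ₗᵢ[ℂ] E)) (v : E) (N : ℕ) : Continuous (dens ρ v N) := by
  have := cont_FF ρ v N
  refine Continuous.subtype_mk ?_ _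
  fun_prop

theorem int_dens {ρ : ZZ → (E ≃ₗᵢ[ℂ] E)} (hρ : ∀ m n, ρ (m + n) = ρ m * ρ n) (v : E) (N : ℕ)
    (h : ZZ) : ∫ t, mFourier h t ∂(lam.withDensity fun t => (dens ρ v N t : ℝ≥0∞)) =
      (((box N).filter fun c => c + h ∈ box N).card : ℂ) / (N : ℂ) ^ 2 * ⟪v, ρ h v⟫_ℂ := by
  rw [integral_withDensity_eq_integral_smul (cont_dens ρ v N).measurable, div_mul_eq_mul_div,
    ← int_FF hρ, ← integral_div]
  congr 1; ext t
  rw [NNReal.smul_def, Complex.real_smul]
  have : ((dens ρ v N t : ℝ≥0) : ℝ) = ‖FF ρ v N t‖ ^ 2 / (N : ℝ) ^ 2 := rfl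
  rw [this]
  push_cast
  ring

theorem fin_dens (ρ : ZZ → (E ≃ₗᵢ[ℂ] E)) (v : E) (N : ℕ) :
    IsFiniteMeasure (lam.withDensity fun t => (dens ρ v N t : ℝ≥0∞)) := by
  apply isFiniteMeasure_withDensity
  have : Integrable (fun t => (dens ρ v N t : ℝ)) lam :=
    int_cont lam (NNReal.continuous_coe.comp (cont_dens ρ v N))
  exact ((lintegral_coe_eq_integral _ this).trans_ne ENNReal.ofReal_ne_top)

theorem exists_spec {ρ : ZZ → (E ≃ₗᵢ[ℂ] E)} (hρ : ∀ m n, ρ (m + n) = ρ m * ρ n) (v : E) :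
    ∃ σ : FiniteMeasure TT, ∀ h, ∫ t, mFourier h t ∂(σ : Measure TT) = ⟪v, ρ h v⟫_ℂ := by
  let s : ℕ → FiniteMeasure TT := fun N =>
    ⟨lam.withDensity fun t => (dens ρ v (N + 1) t : ℝ≥0∞), fin_dens _ _ _⟩
  have hlim : ∀ h, Tendsto (fun N => ∫ t, mFourier h t ∂(s N : Measure TT)) atTop
      (𝓝 ⟪v, ρ h v⟫_ℂ) := by
    intro h
    have := (ratio h).mul_const ⟪v, ρ h v⟫_ℂ
    rw [one_mul] at this
    exact this.congr fun N => (int_dens hρ v (N + 1) h).symm
  obtain ⟨C, hC⟩ := (hlim 0).norm.bddAbove_range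
  have hmass : ∀ N, (s N).mass ≤ C.toNNReal := by
    intro N
    have h1 := hC ⟨N, rfl⟩
    simp only [mFourier_zero, ContinuousMap.one_apply, integral_const, Complex.real_smul, mul_one,
      Complex.norm_real] at h1
    rw [Real.norm_of_nonneg measureReal_nonneg] at h1
    rw [← NNReal.coe_le_coe]
    exact le_trans h1 (Real.le_coe_toNNReal C)
  obtain ⟨σ, -, hσ⟩ := (isCompact_setOfPred_finiteMeasure_le_of_compactSpace TT
    C.toNNReal).ultrafilter_le_nhds ((hyperfilter ℕ).map s) (by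
      rw [Ultrafilter.coe_map, le_principal_iff, mem_map]
      exact univ_mem' hmass)
  refine ⟨σ, fun h => ?_⟩
  have hσ' : Tendsto s (hyperfilter ℕ) (𝓝 σ) := hσ
  have h1 := (FiniteMeasure.tendsto_iff_forall_integral_rclike_tendsto ℂ).1 hσ'
    (BoundedContinuousFunction.mkOfCompact (mFourier h))
  simp only [BoundedContinuousFunction.mkOfCompact_apply] at h1
  exact tendsto_nhds_unique h1 ((hlim h).mono_left (Nat.hyperfilter_le_atTop))

end Pool.Agent.H566Z.T3
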