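import Pool.Agent.H566Z.T3.EJ
import Pool.Agent.H566Z.T3.Rel
import Pool.Agent.H515Z.GMHil

set_option autoImplicit false
set_option linter.unusedSectionVars false
set_option linter.unusedVariables false

/-!
Property (T) for groups generated by six elements with the Steinberg relations of `SL 3` over the
integers together with a normal Kazhdan subgroup.
-/

namespace Pool.Agent.H566Z.T3

open Pool.Agent.H304Z.NH

section real

variable {H : Type} [NormedAddCommGroup H] [InnerProductSpace ℝ H] [CompleteSpace H]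

theorem proj_near (K : Submodule ℝ H) [K.HasOrthogonalProjection] (x : H) {k : H} (hk : k ∈ K) :
    ‖K.starProjection x - k‖ ≤ ‖x - k‖ := by
  have h := K.norm_starProjection_apply_le (x - k)
  rwa [map_sub, Submodule.starProjection_eq_self_iff.mpr hk] at h

theorem pair_fix {a z : H ≃ₗᵢ[ℝ] H} (hza : z * a = a * z) (v : H) (δ : ℝ)
    (h : ∀ m n : ℤ, ‖(a ^ m * z ^ n) v - v‖ ≤ δ) : ∃ w, a w = w ∧ z w = w ∧ ‖w - v‖ ≤ δ := by
  let C : Set H := ⋂ p : ℤ × ℤ, Metric.closedBall ((a ^ p.1 * z ^ p.2) v) δ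
  have hm : ∀ x, x ∈ C ↔ ∀ m n : ℤ, ‖x - (a ^ m * z ^ n) v‖ ≤ δ := by
    intro x
    simp only [C, Set.mem_iInter, Metric.mem_closedBall, dist_eq_norm, Prod.forall]
  obtain ⟨w, hw, huniq⟩ := fix_of_convex (C := C)
    (isClosed_iInter fun _ => Metric.isClosed_closedBall)
    (convex_iInter fun _ => convex_closedBall _ _)
    ⟨v, (hm v).mpr fun m n => by rw [norm_sub_rev]; exact h m n⟩
  have hc : Commute z a := hza
  refine ⟨w, huniq _ ((hm _).mpr fun m n => ?_) (a.norm_map w),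
    huniq _ ((hm _).mpr fun m n => ?_) (z.norm_map w), by simpa using (hm w).mp hw 0 0⟩
  · have e : a ^ m * z ^ n = a * (a ^ (m - 1) * z ^ n) := by group
    have e2 : (a ^ m * z ^ n) v = a ((a ^ (m - 1) * z ^ n) v) := app_of_eq e v
    rw [e2, ← map_sub, a.norm_map]
    exact (hm w).mp hw _ _
  · have e : a ^ m * z ^ n = z * (a ^ m * z ^ (n - 1)) := by
      rw [← mul_assoc, (hc.zpow_right m).eq]; group
    have e2 : (a ^ m * z ^ n) v = z ((a ^ m * z ^ (n - 1)) v) := app_of_eq e v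
    rw [e2, ← map_sub, z.norm_map]
    exact (hm w).mp hw _ _

theorem heis_fix {a b z : H ≃ₗᵢ[ℝ] H} (hzb : z * b = b * z) (hab : a * b = b * a * z)
    {v x y : H} {δ : ℝ} (xa : a x = x) (xz : z x = x) (yz : z y = y) (yb : b y = y)
    (hx : ‖x - v‖ ≤ δ) (hy : ‖y - v‖ ≤ δ) :
    ∃ k, a k = k ∧ z k = k ∧ b k = k ∧ ‖k - v‖ ≤ 3 * δ := by
  have hzb' : ∀ u, z (b u) = b (z u) := fun u => app_of_eq hzb u
  have hab' : ∀ u, a (b u) = b (a (z u)) := fun u => app_of_eq hab u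
  have mA : ∀ u, u ∈ Fx ({a, z} : Set (H ≃ₗᵢ[ℝ] H)) ↔ a u = u ∧ z u = u :=
    fun u => by simp [mem_Fx]
  have kz := (mA _).mp ((Fx {a, z}).starProjection_apply_mem y)
  refine ⟨(Fx {a, z}).starProjection y, kz.1, kz.2, ?_, ?_⟩
  · rw [← proj_comm (Fx {a, z}) b, yb]
    · intro x hx
      rw [mA] at hx ⊢
      exact ⟨by rw [hab', hx.2, hx.1], by rw [hzb', hx.2]⟩
    · intro x hx
      rw [mA] at hx ⊢
      have e2 : z (b.symm x) = b.symm x := by
        apply b.injective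
        rw [← hzb', b.apply_symm_apply, hx.2]
      refine ⟨?_, e2⟩
      apply b.injective
      conv_lhs => rw [← e2]
      rw [← hab', b.apply_symm_apply, hx.1]
  · have h1 := proj_near (Fx {a, z}) y ((mA x).mpr ⟨xa, xz⟩)
    have h2 := norm_add_le ((Fx {a, z}).starProjection y - x) (x - v)
    have h3 := norm_sub_le (y - v) (x - v)
    rw [sub_add_sub_cancel] at h2
    rw [sub_sub_sub_cancel_right] at h3
    linarith

end real

section cplx

variable {G : Type} [Group G] {E : Type} [NormedAddCommGroup E] [InnerProductSpace ℂ E]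
  [CompleteSpace E]

/-- a unitary representation as a homomorphism to complex linear isometries -/
noncomputable def isoC (π : G →* (E →L[ℂ] E)) (hπ : ∀ g : G, π g ∈ unitary (E →L[ℂ] E)) :
    G →* (E ≃ₗᵢ[ℂ] E) where
  toFun g :=
    { toFun := π g
      invFun := π g⁻¹
      map_add' := map_add _
      map_smul' := map_smul _
      left_inv := fun x => by
        show (π g⁻¹ * π g) x = x
        rw [← map_mul, inv_mul_cancel, map_one]; rfl
      right_inv := fun x => by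
        show (π g * π g⁻¹) x = x
        rw [← map_mul, mul_inv_cancel, map_one]; rfl
      norm_map' := fun x => (π g).norm_map_of_mem_unitary (hπ g) x }
  map_one' := by
    ext x
    show π 1 x = x
    rw [map_one]; rfl
  map_mul' g h := by
    ext x
    show π (g * h) x = π g (π h x)
    rw [map_mul]; rfl

/-- a unitary representation as a homomorphism to real linear isometries -/
noncomputable def isoR (π : G →* (E →L[ℂ] E)) (hπ : ∀ g : G, π g ∈ unitary (E →L[ℂ] E)) :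
    G →* (E ≃ₗᵢ[ℝ] E) where
  toFun g :=
    { toFun := π g
      invFun := π g⁻¹
      map_add' := map_add _
      map_smul' := fun c x => (π g).map_smul_of_tower c x
      left_inv := fun x => by
        show (π g⁻¹ * π g) x = x
        rw [← map_mul, inv_mul_cancel, map_one]; rfl
      right_inv := fun x => by
        show (π g * π g⁻¹) x = x
        rw [← map_mul, mul_inv_cancel, map_one]; rfl
      norm_map' := fun x => (π g).norm_map_of_mem_unitary (hπ g) x }
  map_one' := by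
    ext x
    show π 1 x = x
    rw [map_one]; rfl
  map_mul' g h := by
    ext x
    show π (g * h) x = π g (π h x)
    rw [map_mul]; rfl

theorem rel_grp (π : G →* (E →L[ℂ] E)) (hπ : ∀ g : G, π g ∈ unitary (E →L[ℂ] E))
    (U V X Y : G) (hUV : U * V = V * U) (hXU : X * U = U * X)
    (hXV : X * V = V * X * U ∨ V * X = X * V * U) (hYV : Y * V = V * Y)
    (hYU : U * Y = Y * U * V ∨ Y * U = U * Y * V)
    (v : E) (hv : ‖v‖ ≤ 1) {s : ℝ} (hs : 0 < s) (hs1 : s ≤ 1)
    (h1 : ‖π X v - v‖ ≤ s ^ 2) (h2 : ‖π Y v - v‖ ≤ s ^ 2) (h3 : ‖π U v - v‖ ≤ s ^ 2)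
    (h4 : ‖π V v - v‖ ≤ s ^ 2) (m n : ℤ) : ‖π (U ^ m * V ^ n) v - v‖ ≤ 8 * s := by
  have inv : ∀ g : G, ‖π g v - v‖ ≤ s ^ 2 → ‖π g⁻¹ v - v‖ ≤ s ^ 2 := by
    intro g hg
    have e : π g (π g⁻¹ v) = v := (isoC π hπ g).right_inv v
    rw [← (π g).norm_map_of_mem_unitary (hπ g), map_sub, e, norm_sub_rev]
    exact hg
  obtain ⟨X', a1, a2, a3⟩ : ∃ X' : G, X' * U = U * X' ∧ X' * V = U * V * X' ∧
      ‖π X' v - v‖ ≤ s ^ 2 := by
    rcases hXV with h | h
    · exact ⟨X, hXU, by rw [h, mul_assoc, hXU, ← mul_assoc, hUV], h1⟩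
    · refine ⟨X⁻¹, (Commute.inv_left hXU).eq, ?_, inv X h1⟩
      calc X⁻¹ * V = X⁻¹ * (V * X) * X⁻¹ := by group
        _ = U * V * X⁻¹ := by rw [h, hUV]; group
  obtain ⟨Y', b1, b2, b3⟩ : ∃ Y' : G, Y' * V = V * Y' ∧ Y' * U = U * V * Y' ∧
      ‖π Y' v - v‖ ≤ s ^ 2 := by
    rcases hYU with h | h
    · refine ⟨Y⁻¹, (Commute.inv_left hYV).eq, ?_, inv Y h2⟩
      calc Y⁻¹ * U = Y⁻¹ * (U * Y) * Y⁻¹ := by group
        _ = U * V * Y⁻¹ := by rw [h]; group
    · exact ⟨Y, hYV, by rw [h, mul_assoc, hYV, ← mul_assoc], h2⟩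
  have := rel_T (isoC π hπ U) (isoC π hπ V) (isoC π hπ X') (isoC π hπ Y')
    (by rw [← map_mul, ← map_mul, hUV]) (by rw [← map_mul, ← map_mul, a1])
    (by rw [← map_mul, ← map_mul, ← map_mul, a2]) (by rw [← map_mul, ← map_mul, b1])
    (by rw [← map_mul, ← map_mul, ← map_mul, b2]) v hv hs hs1 a3 b3 h3 h4 m n
  rw [← map_zpow, ← map_zpow, ← map_mul] at this
  exact this

theorem st3_close (π : G →* (E →L[ℂ] E)) (hπ : ∀ g : G, π g ∈ unitary (E →L[ℂ] E))
    (a : Fin 6 → G) (hc : ∀ i, a i * a (i + 1) = a (i + 1) * a i)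
    (hh : ∀ i, a (i + 5) * a (i + 1) = a (i + 1) * a (i + 5) * a i ∨
      a (i + 1) * a (i + 5) = a (i + 5) * a (i + 1) * a i)
    (v : E) (hv : ‖v‖ ≤ 1) {s : ℝ} (hs : 0 < s) (hs1 : s ≤ 1)
    (h : ∀ i, ‖π (a i) v - v‖ ≤ s ^ 2) :
    ∃ w, (∀ i, π (a i) w = w) ∧ ‖w - v‖ ≤ 72000 * s := by
  letI : InnerProductSpace ℝ E := InnerProductSpace.complexToReal
  have i15 : ∀ i : Fin 6, i + 1 + 5 = i := by decide
  have i51 : ∀ i : Fin 6, i + 5 + 1 = i := by decide
  have c1 : ∀ i, a (i + 5) * a i = a i * a (i + 5) := fun i => by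
    have := hc (i + 5)
    rwa [i51] at this
  have hp : ∀ i, ∃ w, π (a i) w = w ∧ π (a (i + 1)) w = w ∧ ‖w - v‖ ≤ 8 * s := by
    intro i
    refine pair_fix (a := isoR π hπ (a i)) (z := isoR π hπ (a (i + 1)))
      (by rw [← map_mul, ← map_mul, hc i]) v (8 * s) fun m n => ?_
    rw [← map_zpow, ← map_zpow, ← map_mul]
    have := hh (i + 1)
    rw [i15] at this
    exact rel_grp π hπ (a i) (a (i + 1)) (a (i + 5)) (a (i + 1 + 1)) (hc i) (c1 i) (hh i)
      (hc (i + 1)).symm this v hv hs hs1 (h _) (h _) (h _) (h _) m n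
  have hg : ∀ i, ∃ k, π (a (i + 5)) k = k ∧ π (a i) k = k ∧ π (a (i + 1)) k = k ∧
      ‖k - v‖ ≤ 3 * (8 * s) := by
    intro i
    obtain ⟨x, x1, x2, x3⟩ := hp (i + 5)
    rw [i51] at x2
    obtain ⟨y, y1, y2, y3⟩ := hp i
    rcases hh i with e | e
    · exact heis_fix (a := isoR π hπ (a (i + 5))) (b := isoR π hπ (a (i + 1)))
        (z := isoR π hπ (a i)) (by rw [← map_mul, ← map_mul, hc i])
        (by rw [← map_mul, ← map_mul, ← map_mul, e]) x1 x2 y1 y2 x3 y3
    · obtain ⟨k, k1, k2, k3, k4⟩ := heis_fix (a := isoR π hπ (a (i + 1)))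
        (b := isoR π hπ (a (i + 5))) (z := isoR π hπ (a i)) (by rw [← map_mul, ← map_mul, c1 i])
        (by rw [← map_mul, ← map_mul, ← map_mul, e]) y2 y1 x2 x1 y3 x3
      exact ⟨k, k3, k2, k1, k4⟩
  choose g g1 g2 g3 g4 using hg
  obtain ⟨w, w1, w2⟩ := ej (fun i => isoR π hπ (a i))
    (fun i => by rw [← map_mul, ← map_mul, hc i])
    (fun i => (hh i).imp (fun e => by rw [← map_mul, ← map_mul, ← map_mul, e])
      (fun e => by rw [← map_mul, ← map_mul, ← map_mul, e]))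
    v (3 * (8 * s)) (by positivity) g (fun i => ⟨g1 i, g2 i, g3 i⟩) g4
  exact ⟨w, w1, by linarith⟩

theorem kaz_near {N : Type} [Group N] {S : Finset N} (hK : Kaz N S) : ∃ ε : ℝ, 0 < ε ∧
    ∀ (E : Type) [NormedAddCommGroup E] [InnerProductSpace ℂ E] [CompleteSpace E]
      (π : N →* (E →L[ℂ] E)), (∀ g : N, π g ∈ unitary (E →L[ℂ] E)) → ∀ (v : E) (δ : ℝ), 0 ≤ δ →
      (∀ s ∈ S, ‖π s v - v‖ ≤ ε * δ) → ∃ p, (∀ g, π g p = p) ∧ ‖p - v‖ ≤ δ := by
  obtain ⟨ε, h0, h1, hd⟩ := Pool.Agent.H515Z.GM.disp_of_kaz hK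
  refine ⟨ε, h0, fun E _ _ _ π hπ v δ hδ hv => ?_⟩
  obtain ⟨p, hp, z, hz, rfl⟩ :=
    Submodule.exists_add_mem_mem_orthogonal (K := Pool.Agent.H515Z.GM.Inv π) v
  refine ⟨p, hp, ?_⟩
  rw [sub_add_cancel_left, norm_neg]
  by_cases hz0 : z = 0
  · rw [hz0, norm_zero]; exact hδ
  obtain ⟨s, hs, hsz⟩ := hd _ (Pool.Agent.H515Z.GM.res π hπ) (Pool.Agent.H515Z.GM.res_unitary π hπ)
    (Pool.Agent.H515Z.GM.res_noinv π hπ) ⟨z, hz⟩ (fun h => hz0 (congrArg Subtype.val h))
  replace hsz : ε * ‖z‖ ≤ ‖π s z - z‖ := hsz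
  have h2 := hv s hs
  rw [map_add, hp s, add_sub_add_left_eq_sub] at h2
  exact le_of_mul_le_mul_left (hsz.trans h2) h0

end cplx

theorem kaz_ext {G : Type} [Group G] (N : Subgroup G) (hN : N.Normal) {SN : Finset N}
    (hK : Kaz N SN) (a : Fin 6 → G) (hc : ∀ i, a i * a (i + 1) = a (i + 1) * a i)
    (hh : ∀ i, a (i + 5) * a (i + 1) = a (i + 1) * a (i + 5) * a i ∨
      a (i + 1) * a (i + 5) = a (i + 5) * a (i + 1) * a i)
    (hgen : Subgroup.closure ((N : Set G) ∪ Set.range a) = ⊤)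
    (S : Finset G) (h1 : ∀ s ∈ SN, (s : G) ∈ S) (h2 : ∀ i, a i ∈ S) : Kaz G S := by
  obtain ⟨ε, hε, hn⟩ := kaz_near hK
  refine ⟨min (ε * (1 / 10)) ((1 / 200000) ^ 2), lt_min (by positivity) (by positivity), ?_⟩
  intro E _ _ _ π hπ ⟨v, hv, hs⟩
  letI : InnerProductSpace ℝ E := InnerProductSpace.complexToReal
  obtain ⟨p, p1, p2⟩ := hn E (π.comp N.subtype) (fun g => hπ _) v (1 / 10) (by norm_num)
    fun s hs' => ((hs _ (h1 s hs')).trans_le (min_le_left _ _)).le
  obtain ⟨w, w1, w2⟩ := st3_close π hπ a hc hh v hv.le (s := 1 / 200000) (by norm_num)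
    (by norm_num) fun i => ((hs _ (h2 i)).trans_le (min_le_right _ _)).le
  let K : Submodule ℝ E := Fx (isoR π hπ '' (N : Set G))
  have mK : ∀ x, x ∈ K ↔ ∀ n ∈ N, π n x = x := by
    intro x
    constructor
    · intro hx n hn
      exact hx _ ⟨n, hn, rfl⟩
    · rintro hx _ ⟨n, hn, rfl⟩
      exact hx n hn
  have inv : ∀ g : G, ∀ x ∈ K, π g x ∈ K := by
    intro g x hx
    rw [mK] at hx ⊢
    intro n hn
    have h3 := hx _ (hN.conj_mem n hn g⁻¹)
    have e : n * g = g * (g⁻¹ * n * g⁻¹⁻¹) := by group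
    show (π n * π g) x = π g x
    rw [← map_mul, e, map_mul]
    show π g (π _ x) = π g x
    rw [h3]
  have pK : p ∈ K := (mK p).mpr fun n hn => p1 ⟨n, hn⟩
  refine ⟨K.starProjection w, fun h0 => ?_, fun g => ?_⟩
  · have a1 := proj_near K w pK
    rw [h0, zero_sub, norm_neg] at a1
    have a2 := norm_sub_le (w - v) (p - v)
    rw [sub_sub_sub_cancel_right] at a2
    have a3 := norm_sub_le p (p - v)
    rw [sub_sub_cancel, hv] at a3
    linarith
  · have hg : g ∈ Subgroup.closure ((N : Set G) ∪ Set.range a) := by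
      rw [hgen]; exact Subgroup.mem_top g
    induction hg using Subgroup.closure_induction with
    | mem x hx =>
      rcases hx with hx | ⟨i, rfl⟩
      · exact (mK _).mp (K.starProjection_apply_mem w) x hx
      · have := proj_comm K (isoR π hπ (a i)) (inv (a i)) (inv (a i)⁻¹) w
        have e : isoR π hπ (a i) w = w := w1 i
        rw [e] at this
        exact this.symm
    | one => rw [map_one]; rfl
    | mul x y _ _ hx hy =>
      rw [map_mul]
      show π x (π y _) = _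
      rw [hy, hx]
    | inv x _ hx =>
      conv_lhs => rw [← hx]
      exact (isoC π hπ x).left_inv _

end Pool.Agent.H566Z.T3
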